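import Pool.Agent.H45F.Genus

set_option autoImplicit false

open scoped ContDiff NNReal commutatorElement
open Set

namespace Pool.Agent.H75S

open Pool.Agent.H45F

/-- a translation on a bounded set -/
theorem exists_translation (x : ℂ) (R : ℝ) :
    ∃ f : Equiv.Perm ℂ, f ∈ DiffC ∧ ∀ z : ℂ, ‖z‖ ≤ R → f z = z + x := by
  set B : ℝ := |R| + ‖x‖ + 1 with hB
  have hBpos : 0 < B := by positivity
  let χ : ContDiffBump (0 : ℂ) := ⟨B, B + 1, hBpos, by linarith⟩
  let v : ℂ → ℂ := fun z => χ z • x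
  have hv : ContDiff ℝ ∞ v := (χ.contDiff).smul contDiff_const
  have hvR : ∀ z : ℂ, B + 1 ≤ ‖z‖ → v z = 0 := by
    intro z hz
    have h1 : χ z = 0 := by
      apply χ.zero_of_le_dist
      rw [dist_zero_right]; exact hz
    simp [v, h1]
  obtain ⟨δ₀, hδ₀, hδ⟩ := exists_small v hv _ hvR
  obtain ⟨n, hn⟩ := exists_nat_gt (1 / δ₀)
  have hn0 : (0 : ℝ) < n := lt_trans (by positivity) hn
  have hnδ : |1 / (n : ℝ)| ≤ δ₀ := by
    rw [abs_of_pos (by positivity), div_le_iff₀ hn0]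
    rw [div_lt_iff₀ hδ₀] at hn
    linarith
  obtain ⟨f, hf, hfz⟩ := hδ (1 / n) hnδ
  have hstep : ∀ z : ℂ, ‖z‖ ≤ B → f z = z + (1 / n : ℝ) • x := by
    intro z hz
    have h1 : χ z = 1 := by
      apply χ.one_of_mem_closedBall
      rw [Metric.mem_closedBall, dist_zero_right]
      exact hz
    rw [hfz z]
    simp only [v, h1, one_smul]
  have hiter : ∀ m : ℕ, m ≤ n → ∀ z : ℂ, ‖z‖ ≤ R → (f ^ m) z = z + ((m : ℝ) / n) • x := by
    intro m
    induction m with
    | zero => intro _ z _; simp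
    | succ m ih =>
      intro hm z hz
      rw [pow_succ', Equiv.Perm.mul_apply]
      have h2 := ih (by omega) z hz
      have h3 : ‖(f ^ m) z‖ ≤ B := by
        rw [h2]
        have h4 : ‖((m : ℝ) / n) • x‖ ≤ ‖x‖ := by
          rw [norm_smul, Real.norm_eq_abs, abs_of_nonneg (by positivity)]
          have : (m : ℝ) / n ≤ 1 := by
            rw [div_le_one hn0]; exact_mod_cast (by omega : m ≤ n)
          calc (m : ℝ) / n * ‖x‖ ≤ 1 * ‖x‖ := mul_le_mul_of_nonneg_right this (norm_nonneg _)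
            _ = ‖x‖ := one_mul _
        have h5 := norm_add_le z (((m : ℝ) / n) • x)
        linarith [le_abs_self R]
      rw [hstep _ h3, h2, add_assoc, ← add_smul]
      congr 2
      push_cast
      ring
  refine ⟨f ^ n, DiffC.pow_mem hf n, fun z hz => ?_⟩
  rw [hiter n le_rfl z hz, div_self hn0.ne', one_smul]

/-- a homothety on a bounded set -/
theorem exists_scaling (ρ : ℝ) (hρ : 0 < ρ) (R : ℝ) :
    ∃ f : Equiv.Perm ℂ, f ∈ DiffC ∧ ∀ z : ℂ, ‖z‖ ≤ R → f z = ρ • z := by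
  set B : ℝ := |R| * max 1 ρ + 1 with hB
  have hmax : 1 ≤ max 1 ρ := le_max_left _ _
  have hBpos : 0 < B := by positivity
  let χ : ContDiffBump (0 : ℂ) := ⟨B, B + 1, hBpos, by linarith⟩
  let v : ℂ → ℂ := fun z => χ z • z
  have hv : ContDiff ℝ ∞ v := (χ.contDiff).smul contDiff_id
  have hvR : ∀ z : ℂ, B + 1 ≤ ‖z‖ → v z = 0 := by
    intro z hz
    have h1 : χ z = 0 := by
      apply χ.zero_of_le_dist
      rw [dist_zero_right]; exact hz
    simp [v, h1]
  obtain ⟨δ₀, hδ₀, hδ⟩ := exists_small v hv _ hvR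
  have hlim : Filter.Tendsto (fun n : ℕ => ρ ^ (1 / (n : ℝ))) Filter.atTop (nhds 1) := by
    have h1 : Filter.Tendsto (fun n : ℕ => 1 / (n : ℝ)) Filter.atTop (nhds 0) :=
      tendsto_one_div_atTop_nhds_zero_nat
    have h2 := (Real.continuousAt_const_rpow (b := 0) hρ.ne').tendsto.comp h1
    rw [Real.rpow_zero] at h2
    exact h2
  have hev : ∀ᶠ n : ℕ in Filter.atTop, |ρ ^ (1 / (n : ℝ)) - 1| ≤ δ₀ := by
    have h1 := hlim.eventually (Metric.closedBall_mem_nhds (1 : ℝ) hδ₀)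
    filter_upwards [h1] with n hn
    rwa [← Real.dist_eq]
  obtain ⟨n, hn, hn1⟩ := (hev.and (Filter.eventually_ge_atTop 1)).exists
  have hn0 : (0 : ℝ) < n := by exact_mod_cast hn1
  set q : ℝ := ρ ^ (1 / (n : ℝ)) with hq
  have hq0 : 0 < q := Real.rpow_pos_of_pos hρ _
  have hqn : q ^ n = ρ := by
    rw [hq, ← Real.rpow_natCast, ← Real.rpow_mul hρ.le, one_div, inv_mul_cancel₀ hn0.ne',
      Real.rpow_one]
  have hqm : ∀ m : ℕ, m ≤ n → q ^ m ≤ max 1 ρ := by
    intro m hm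
    rcases le_total q 1 with h | h
    · exact le_trans (pow_le_one₀ hq0.le h) hmax
    · calc q ^ m ≤ q ^ n := pow_le_pow_right₀ h hm
        _ = ρ := hqn
        _ ≤ max 1 ρ := le_max_right _ _
  obtain ⟨f, hf, hfz⟩ := hδ (q - 1) hn
  have hstep : ∀ z : ℂ, ‖z‖ ≤ B → f z = q • z := by
    intro z hz
    have h1 : χ z = 1 := by
      apply χ.one_of_mem_closedBall
      rw [Metric.mem_closedBall, dist_zero_right]
      exact hz
    rw [hfz z]
    simp only [v, h1, one_smul]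
    rw [sub_smul, one_smul]; ring
  have hiter : ∀ m : ℕ, m ≤ n → ∀ z : ℂ, ‖z‖ ≤ R → (f ^ m) z = (q ^ m) • z := by
    intro m
    induction m with
    | zero => intro _ z _; simp
    | succ m ih =>
      intro hm z hz
      rw [pow_succ', Equiv.Perm.mul_apply]
      have h2 := ih (by omega) z hz
      have h3 : ‖(f ^ m) z‖ ≤ B := by
        rw [h2, norm_smul, Real.norm_eq_abs, abs_of_nonneg (by positivity)]
        have h4 := hqm m (by omega)
        calc q ^ m * ‖z‖ ≤ max 1 ρ * |R| :=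
              mul_le_mul h4 (le_trans hz (le_abs_self R)) (norm_nonneg _) (by positivity)
          _ ≤ B := by rw [hB]; linarith [mul_comm (max 1 ρ) |R|]
      rw [hstep _ h3, h2, smul_smul, pow_succ']
  refine ⟨f ^ n, DiffC.pow_mem hf n, fun z hz => ?_⟩
  rw [hiter n le_rfl z hz, hqn]

/-- a similarity on a bounded set -/
theorem exists_similarity (x : ℂ) (ρ : ℝ) (hρ : 0 < ρ) (R : ℝ) :
    ∃ f : DiffC, ∀ z : ℂ, ‖z‖ ≤ R → (f : Equiv.Perm ℂ) z = x + ρ • z := by
  obtain ⟨f, hf, hfz⟩ := exists_scaling ρ hρ R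
  obtain ⟨g, hg, hgz⟩ := exists_translation x (ρ * R)
  refine ⟨⟨g, hg⟩ * ⟨f, hf⟩, fun z hz => ?_⟩
  change g (f z) = _
  rw [hfz z hz, hgz, add_comm]
  rw [norm_smul, Real.norm_eq_abs, abs_of_pos hρ]
  exact mul_le_mul_of_nonneg_left hz hρ.le

end Pool.Agent.H75S
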