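import Pool.Agent.H75T.Group

set_option autoImplicit false

open scoped ContDiff NNReal commutatorElement
open Set

namespace Pool.Agent.H75S

open Pool.Agent.H45F Pool.Agent.H75T

section word

variable {H : Type*} [Group H] {k : ℕ}

/-- the product of the commutators of `k` pairs -/
def wd (f g : Fin k → H) : H := ((List.finRange k).map fun i => ⁅f i, g i⁆).prod

theorem wd_congr {f g f' g' : Fin k → H} (hf : ∀ i, ⁅f i, g i⁆ = ⁅f' i, g' i⁆) :
    wd f g = wd f' g' := by
  unfold wd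
  congr 1
  exact List.map_congr_left (fun i _ => hf i)

theorem commute_commutator {a b x : H} (h1 : Commute a x) (h2 : Commute b x) :
    Commute ⁅a, b⁆ x := by
  rw [commutatorElement_def]
  exact ((h1.mul_left h2).mul_left h1.inv_left).mul_left h2.inv_left

theorem commutator_mul_mul {a a' b b' : H} (h1 : Commute a a') (h2 : Commute a b')
    (h3 : Commute b a') (h4 : Commute b b') : ⁅a * a', b * b'⁆ = ⁅a, b⁆ * ⁅a', b'⁆ := by
  simp only [commutatorElement_def, mul_inv_rev]
  have e1 : a' * b = b * a' := h3.symm.eq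
  have e2 : b' * a'⁻¹ * a⁻¹ = a⁻¹ * (b' * a'⁻¹) := by
    have : Commute (b' * a'⁻¹) a⁻¹ := (h2.symm.mul_left h1.symm.inv_left).inv_right
    exact this.eq
  have e3 : b'⁻¹ * b⁻¹ = b⁻¹ * b'⁻¹ := (h4.symm.inv_left.inv_right).eq
  have e4 : a' * (a⁻¹ * (b' * a'⁻¹)) = a⁻¹ * (a' * b' * a'⁻¹) := by
    have : Commute a' a⁻¹ := h1.symm.inv_right
    calc a' * (a⁻¹ * (b' * a'⁻¹)) = (a' * a⁻¹) * (b' * a'⁻¹) := by group
      _ = (a⁻¹ * a') * (b' * a'⁻¹) := by rw [this.eq]
      _ = _ := by group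
  have e5 : Commute (a' * b' * a'⁻¹) b⁻¹ :=
    ((h3.symm.mul_left h4.symm).mul_left h3.symm.inv_left).inv_right
  calc a * a' * (b * b') * (a'⁻¹ * a⁻¹) * (b'⁻¹ * b⁻¹)
      = a * (a' * b) * (b' * a'⁻¹ * a⁻¹) * (b'⁻¹ * b⁻¹) := by group
    _ = a * (b * a') * (a⁻¹ * (b' * a'⁻¹)) * (b⁻¹ * b'⁻¹) := by rw [e1, e2, e3]
    _ = a * b * (a' * (a⁻¹ * (b' * a'⁻¹))) * (b⁻¹ * b'⁻¹) := by group
    _ = a * b * (a⁻¹ * (a' * b' * a'⁻¹)) * (b⁻¹ * b'⁻¹) := by rw [e4]
    _ = a * b * a⁻¹ * ((a' * b' * a'⁻¹) * b⁻¹) * b'⁻¹ := by group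
    _ = a * b * a⁻¹ * (b⁻¹ * (a' * b' * a'⁻¹)) * b'⁻¹ := by rw [e5.eq]
    _ = a * b * a⁻¹ * b⁻¹ * (a' * b' * a'⁻¹ * b'⁻¹) := by group

theorem list_prod_mul_of_commute {ι : Type*} (l : List ι) (u v : ι → H)
    (h : ∀ i j, Commute (u i) (v j)) :
    (l.map fun i => u i * v i).prod = (l.map u).prod * (l.map v).prod := by
  induction l with
  | nil => simp
  | cons i l ih =>
    simp only [List.map_cons, List.prod_cons]
    rw [ih]
    have h1 : Commute (v i) (l.map u).prod := by
      apply Commute.list_prod_right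
      intro x hx
      rw [List.mem_map] at hx
      obtain ⟨j, _, rfl⟩ := hx
      exact (h j i).symm
    calc u i * v i * ((l.map u).prod * (l.map v).prod)
        = u i * (v i * (l.map u).prod) * (l.map v).prod := by group
      _ = u i * ((l.map u).prod * v i) * (l.map v).prod := by rw [h1.eq]
      _ = _ := by group

theorem wd_mul {f g f' g' : Fin k → H} (h1 : ∀ i j, Commute (f i) (f' j))
    (h2 : ∀ i j, Commute (f i) (g' j)) (h3 : ∀ i j, Commute (g i) (f' j))
    (h4 : ∀ i j, Commute (g i) (g' j)) :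
    wd (fun i => f i * f' i) (fun i => g i * g' i) = wd f g * wd f' g' := by
  unfold wd
  rw [← list_prod_mul_of_commute]
  · congr 1
    refine List.map_congr_left (fun i _ => ?_)
    exact commutator_mul_mul (h1 i i) (h2 i i) (h3 i i) (h4 i i)
  · intro i j
    have e : ∀ x, Commute (f i) x → Commute (g i) x → Commute ⁅f i, g i⁆ x :=
      fun x hx hy => commute_commutator hx hy
    have e1 : Commute ⁅f' j, g' j⁆ (f i) := commute_commutator (h1 i j).symm (h2 i j).symm
    have e2 : Commute ⁅f' j, g' j⁆ (g i) := commute_commutator (h3 i j).symm (h4 i j).symm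
    exact e _ e1.symm e2.symm

theorem wd_conj (t : H) (f g : Fin k → H) :
    wd (fun i => t * f i * t⁻¹) (fun i => t * g i * t⁻¹) = t * wd f g * t⁻¹ := by
  unfold wd
  induction (List.finRange k) with
  | nil => simp
  | cons i l ih =>
    simp only [List.map_cons, List.prod_cons]
    rw [ih]
    simp only [commutatorElement_def]
    group

theorem map_wd {H' : Type*} [Group H'] (φ : H →* H') (f g : Fin k → H) :
    φ (wd f g) = wd (fun i => φ (f i)) (fun i => φ (g i)) := by
  unfold wd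
  rw [map_list_prod, List.map_map]
  congr 1
  refine List.map_congr_left (fun i _ => ?_)
  simp [map_commutatorElement]

theorem wd_one : wd (fun _ : Fin k => (1 : H)) (fun _ => 1) = 1 := by
  unfold wd
  apply List.prod_eq_one
  intro x hx
  rw [List.mem_map] at hx
  obtain ⟨i, _, rfl⟩ := hx
  simp

end word

section ext

variable {E : Type*} [Group E] (p : E →* DiffC) (hp : Function.Surjective p)
  (hc : p.ker ≤ Subgroup.center E) {k : ℕ}

/-- the word of arbitrary lifts -/
noncomputable def om (f g : Fin k → DiffC) : E :=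
  wd (fun i => lft p hp (f i)) (fun i => lft p hp (g i))

include hc in
theorem om_eq {x y : Fin k → E} {f g : Fin k → DiffC} (hx : ∀ i, p (x i) = f i)
    (hy : ∀ i, p (y i) = g i) : wd x y = om p hp f g :=
  wd_congr fun i => commutator_eq_of p hc (by rw [hx, p_lft]) (by rw [hy, p_lft])

theorem p_om (f g : Fin k → DiffC) : p (om p hp f g) = wd f g := by
  unfold om
  rw [map_wd]
  congr 1
  · funext i; exact p_lft p hp _
  · funext i; exact p_lft p hp _

include hc in
theorem om_mul {f g f' g' : Fin k → DiffC}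
    (h : ∀ a ∈ (Set.range f ∪ Set.range g), ∀ b ∈ (Set.range f' ∪ Set.range g'),
      ∀ x y : E, p x = a → p y = b → x * y = y * x) :
    om p hp (fun i => f i * f' i) (fun i => g i * g' i) = om p hp f g * om p hp f' g' := by
  have h1 : om p hp (fun i => f i * f' i) (fun i => g i * g' i) =
      wd (fun i => lft p hp (f i) * lft p hp (f' i)) (fun i => lft p hp (g i) * lft p hp (g' i)) := by
    symm
    refine om_eq p hp hc (fun i => ?_) (fun i => ?_)
    · rw [map_mul, p_lft, p_lft]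
    · rw [map_mul, p_lft, p_lft]
  rw [h1, wd_mul]
  · rfl
  · exact fun i j => h _ (Or.inl ⟨i, rfl⟩) _ (Or.inl ⟨j, rfl⟩) _ _ (p_lft p hp _) (p_lft p hp _)
  · exact fun i j => h _ (Or.inl ⟨i, rfl⟩) _ (Or.inr ⟨j, rfl⟩) _ _ (p_lft p hp _) (p_lft p hp _)
  · exact fun i j => h _ (Or.inr ⟨i, rfl⟩) _ (Or.inl ⟨j, rfl⟩) _ _ (p_lft p hp _) (p_lft p hp _)
  · exact fun i j => h _ (Or.inr ⟨i, rfl⟩) _ (Or.inr ⟨j, rfl⟩) _ _ (p_lft p hp _) (p_lft p hp _)

include hc in
theorem om_conj (t : DiffC) {f g : Fin k → DiffC} (h : wd f g = 1) :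
    om p hp (fun i => t * f i * t⁻¹) (fun i => t * g i * t⁻¹) = om p hp f g := by
  have h1 : om p hp (fun i => t * f i * t⁻¹) (fun i => t * g i * t⁻¹) =
      wd (fun i => lft p hp t * lft p hp (f i) * (lft p hp t)⁻¹)
        (fun i => lft p hp t * lft p hp (g i) * (lft p hp t)⁻¹) := by
    symm
    refine om_eq p hp hc (fun i => ?_) (fun i => ?_)
    · simp [p_lft]
    · simp [p_lft]
  rw [h1, wd_conj]
  have h2 : om p hp f g ∈ Subgroup.center E := hc (by rw [MonoidHom.mem_ker, p_om, h])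
  have h3 := Subgroup.mem_center_iff.mp h2 (lft p hp t)
  change lft p hp t * om p hp f g * (lft p hp t)⁻¹ = _
  rw [h3]; group

end ext

end Pool.Agent.H75S
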