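import Pool.Agent.H75S.Series
import Pool.Agent.H75S.Sim
import Pool.Agent.H75S.Word

set_option autoImplicit false

open scoped ContDiff NNReal commutatorElement
open Set

namespace Pool.Agent.H75S

open Pool.Agent.H45F Pool.Agent.H75T

/-- displacement fields which give diffeomorphisms -/
def good (u : ℂ → ℂ) : Prop :=
  ContDiff ℝ ∞ u ∧ (∃ R : ℝ, ∀ z, R ≤ ‖z‖ → u z = 0) ∧ ∀ z w, ‖u z - u w‖ ≤ 1 / 2 * ‖z - w‖

theorem good.exists_diffC {u : ℂ → ℂ} (h : good u) :
    ∃ f : DiffC, ∀ z, (f : Equiv.Perm ℂ) z = z + u z := by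
  obtain ⟨h1, ⟨R, hR⟩, h3⟩ := h
  have hL : LipschitzWith (1 / 2 : ℝ≥0) u := by
    refine LipschitzWith.of_dist_le_mul (fun x y => ?_)
    rw [dist_eq_norm, dist_eq_norm]
    simpa using h3 x y
  obtain ⟨f, hf, hfz⟩ := exists_diffC_of_lipschitz u h1 (1 / 2) (by
    rw [← NNReal.coe_lt_coe]; norm_num) hL R hR
  exact ⟨⟨f, hf⟩, hfz⟩

open Classical in
/-- the diffeomorphism with a given displacement -/
noncomputable def dif (u : ℂ → ℂ) : DiffC :=
  if h : good u then Classical.choose h.exists_diffC else 1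

theorem dif_app {u : ℂ → ℂ} (h : good u) (z : ℂ) : (dif u : Equiv.Perm ℂ) z = z + u z := by
  unfold dif
  rw [dif_pos h]
  exact Classical.choose_spec h.exists_diffC z

/-- conjugation by a similarity -/
theorem conj_rs {u : ℂ → ℂ} {R : ℝ} (hu : ∀ z, R ≤ ‖z‖ → u z = 0) (hu1 : ∀ z, ‖u z‖ ≤ 1)
    {x : ℂ} {ρ : ℝ} (hρ : 0 < ρ) {θ g T : DiffC}
    (hθ : ∀ z, ‖z‖ ≤ |R| + 1 → (θ : Equiv.Perm ℂ) z = x + ρ • z)
    (hg : ∀ z, (g : Equiv.Perm ℂ) z = z + u z)
    (hT : ∀ z, (T : Equiv.Perm ℂ) z = z + rs x ρ u z) : θ * g * θ⁻¹ = T := by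
  rw [mul_inv_eq_iff_eq_mul]
  apply diffC_ext
  intro z
  rw [Subgroup.coe_mul, Subgroup.coe_mul, Equiv.Perm.mul_apply, Equiv.Perm.mul_apply, hg, hT]
  by_cases hz : ‖z‖ < R
  · have h0 : R ≤ |R| := le_abs_self R
    have h1 : ‖z + u z‖ ≤ |R| + 1 := by
      have := norm_add_le z (u z)
      linarith [hu1 z]
    rw [hθ _ h1, hθ z (by linarith)]
    unfold rs
    have h2 : ρ⁻¹ • (x + ρ • z - x) = z := by
      rw [add_sub_cancel_left, smul_smul, inv_mul_cancel₀ hρ.ne', one_smul]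
    rw [h2, smul_add, add_assoc]
  · push Not at hz
    rw [hu z hz, add_zero]
    have h1 : rs x ρ u ((θ : Equiv.Perm ℂ) z) = 0 := by
      unfold rs
      set ζ : ℂ := ρ⁻¹ • ((θ : Equiv.Perm ℂ) z - x) with hζ
      by_cases hζR : R ≤ ‖ζ‖
      · rw [hu _ hζR, smul_zero]
      · push Not at hζR
        exfalso
        have h2 : (θ : Equiv.Perm ℂ) ζ = (θ : Equiv.Perm ℂ) z := by
          rw [hθ ζ (by linarith [le_abs_self R]), hζ, smul_smul, mul_inv_cancel₀ hρ.ne', one_smul]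
          ring
        have h3 := (θ : Equiv.Perm ℂ).injective h2
        rw [h3] at hζR
        linarith
    rw [h1, add_zero]

/-- part of a cluster: the letter and the first `c` subclusters -/
noncomputable def part (N : ℕ → ℕ) (s : ℝ) (a : ℕ → ℂ → ℂ) (m c : ℕ) (z : ℂ) : ℂ :=
  layer N s a 0 m z + ∑ c' ∈ Finset.range c, rs (cen N m c') (rad N m) (U N s a (m + 1)) z

/-- one subcluster -/
noncomputable def sub (N : ℕ → ℕ) (s : ℝ) (a : ℕ → ℂ → ℂ) (m c : ℕ) (z : ℂ) : ℂ :=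
  rs (cen N m c) (rad N m) (U N s a (m + 1)) z

theorem part_succ (N : ℕ → ℕ) (s : ℝ) (a : ℕ → ℂ → ℂ) (m c : ℕ) (z : ℂ) :
    part N s a m (c + 1) z = part N s a m c z + sub N s a m c z := by
  unfold part sub
  rw [Finset.sum_range_succ, add_assoc]

theorem cen_sub {N : ℕ → ℕ} (hN : ∀ m, 1 ≤ N m) (m : ℕ) {c c' : ℕ} (h : c' < c) :
    4 * rad N m ≤ ‖cen N m c - cen N m c'‖ := by
  have hNm : (1 : ℝ) ≤ N m := by exact_mod_cast hN m
  unfold cen rad
  rw [← Complex.ofReal_sub, Complex.norm_real, Real.norm_eq_abs]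
  refine le_trans ?_ (le_abs_self _)
  have h1 : (c' : ℝ) + 1 ≤ c := by exact_mod_cast h
  have e : (2 * (c : ℝ) + 1) / (4 * N m) - (2 * c' + 1) / (4 * N m) =
      (c - c') / (2 * N m) := by field_simp; ring
  rw [e]
  have e2 : 4 * (1 / (8 * (N m : ℝ))) = 1 / (2 * N m) := by field_simp; ring
  rw [e2]
  exact div_le_div_of_nonneg_right (by linarith) (by positivity)

namespace Dat

variable {N M : ℕ → ℕ} {s R : ℝ} {a : ℕ → ℂ → ℂ} (h : Dat N M s R a)

include h

theorem U_le_one (m : ℕ) (z : ℂ) : ‖U N s a m z‖ ≤ 2 * (1 / 2) ^ m := by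
  have h1 : HasSum (fun n : ℕ => ((1 : ℝ) / 2) ^ (m + n)) (2 * (1 / 2) ^ m) := by
    have h2 := (hasSum_geometric_two).mul_left (((1 : ℝ) / 2) ^ m)
    have e : (fun n : ℕ => ((1 : ℝ) / 2) ^ (m + n)) = fun n => (1 / 2) ^ m * (1 / 2) ^ n := by
      funext n; rw [pow_add]
    rw [e, mul_comm (2 : ℝ)]
    exact h2
  exact tsum_of_norm_bounded h1 (fun n => h.layer_norm n m z)

theorem U_le (m : ℕ) (z : ℂ) : ‖U N s a (m + 1) z‖ ≤ 1 := by
  refine le_trans (h.U_le_one (m + 1) z) ?_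
  rw [pow_succ]
  have : ((1 : ℝ) / 2) ^ m ≤ 1 := pow_le_one₀ (by norm_num) (by norm_num)
  linarith

theorem a_le (m : ℕ) (z : ℂ) : ‖a m z‖ ≤ 1 := by
  have h1 := h.small m 0 (by omega) z
  rw [norm_iteratedFDeriv_zero] at h1
  refine le_trans h1 (le_trans (h.eta_le m) ?_)
  have h2 := h.M_real m
  have h3 : (1 : ℝ) ≤ 2 ^ m := one_le_pow₀ (by norm_num)
  rw [div_le_one (by positivity)]
  have h4 : (1 : ℝ) ≤ 4 * 2 ^ m := by linarith
  have h5 : (1 : ℝ) ≤ 4 * 2 ^ m * M m := by nlinarith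
  nlinarith

theorem part_eq_U (m : ℕ) : part N s a m (N m) = U N s a m := by
  funext z
  rw [h.U_rec m z]; rfl

theorem good_a (m : ℕ) : good (a m) := by
  refine ⟨h.smooth m, ⟨R, h.supp m⟩, fun z w => ?_⟩
  refine le_trans (h.a_lip m z w) (mul_le_mul_of_nonneg_right ?_ (norm_nonneg _))
  refine le_trans (h.eta_le m) ?_
  have h2 := h.M_real m
  have h3 : (1 : ℝ) ≤ 2 ^ m := one_le_pow₀ (by norm_num)
  rw [div_le_div_iff₀ (by positivity) (by norm_num)]
  have h4 : (4 : ℝ) ≤ 4 * 2 ^ m := by linarith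
  have h5 : (4 : ℝ) ≤ 4 * 2 ^ m * M m := by nlinarith
  nlinarith

theorem good_U (m : ℕ) : good (U N s a m) := by
  refine ⟨h.U_smooth m, ⟨1, fun z hz => h.U_supp m hz⟩, fun z w => ?_⟩
  refine le_trans (h.U_lip m z w) (mul_le_mul_of_nonneg_right ?_ (norm_nonneg _))
  have h2 := h.M_real m
  have h3 : (1 : ℝ) ≤ 2 ^ m := one_le_pow₀ (by norm_num)
  rw [div_le_div_iff₀ (by positivity) (by norm_num)]
  nlinarith

theorem good_sub {m c : ℕ} (_hc : c < N m) : good (sub N s a m c) := by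
  have hr := rad_pos h.hN m
  refine ⟨rs_smooth (h.U_smooth _) _ _, ⟨‖cen N m c‖ + rad N m, fun z hz => ?_⟩, fun z w => ?_⟩
  · refine rs_supp (R := 1) (fun z hz => h.U_supp _ hz) _ hr ?_
    have := norm_sub_norm_le z (cen N m c)
    linarith
  · exact rs_lip _ hr (h.good_U (m + 1)).2.2 z w

theorem good_part {m c : ℕ} (hc : c ≤ N m) : good (part N s a m c) := by
  have hr := rad_pos h.hN m
  have hM := h.M_real m
  have hNm : (1 : ℝ) ≤ N m := by exact_mod_cast h.hN m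
  have h2 : (1 : ℝ) ≤ 2 ^ m := one_le_pow₀ (by norm_num)
  refine ⟨(layer_smooth h.smooth 0 m).add (ContDiff.sum fun c _ => rs_smooth (h.U_smooth _) _ _),
    ⟨1, fun z hz => ?_⟩, fun z w => ?_⟩
  · unfold part
    rw [h.layer_supp' 0 m hz, zero_add]
    refine Finset.sum_eq_zero (fun c' hc' => ?_)
    refine rs_supp (R := 1) (fun z hz => h.U_supp _ hz) _ hr ?_
    have h1 := cen_norm_add_rad h.hN (lt_of_lt_of_le (Finset.mem_range.mp hc') hc)
    have h3 := norm_sub_norm_le z (cen N m c')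
    linarith
  · have e : part N s a m c z - part N s a m c w = (layer N s a 0 m z - layer N s a 0 m w) +
        ∑ c' ∈ Finset.range c, (rs (cen N m c') (rad N m) (U N s a (m + 1)) z -
          rs (cen N m c') (rad N m) (U N s a (m + 1)) w) := by
      unfold part; rw [Finset.sum_sub_distrib]; ring
    rw [e]
    have h3 : ∀ c' ∈ Finset.range c, ‖rs (cen N m c') (rad N m) (U N s a (m + 1)) z -
          rs (cen N m c') (rad N m) (U N s a (m + 1)) w‖ ≤
          1 / (2 * 2 ^ (m + 1) * M (m + 1)) * ‖z - w‖ :=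
      fun c' _ => rs_lip _ hr (h.U_lip (m + 1)) z w
    have h4 := norm_sum_le_of_le _ h3
    rw [Finset.sum_const, Finset.card_range, nsmul_eq_mul] at h4
    have h5 := h.layer_lip' 0 m z w
    have h6 : (1 : ℝ) / (4 * 2 ^ m * M m) * (1 / 2) ^ 0 ≤ 1 / 4 := by
      rw [pow_zero, mul_one, div_le_div_iff₀ (by positivity) (by norm_num)]
      nlinarith
    have h7 : (c : ℝ) * (1 / (2 * 2 ^ (m + 1) * M (m + 1))) ≤ 1 / 4 := by
      have hcN : (c : ℝ) ≤ N m := by exact_mod_cast hc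
      have e1 : (M (m + 1) : ℝ) = M m * N m := by rw [h.hM]; push_cast; ring
      calc (c : ℝ) * (1 / (2 * 2 ^ (m + 1) * M (m + 1)))
          ≤ N m * (1 / (2 * 2 ^ (m + 1) * M (m + 1))) :=
            mul_le_mul_of_nonneg_right hcN (by positivity)
        _ = 1 / (4 * 2 ^ m * M m) := by rw [e1, pow_succ]; field_simp; ring
        _ ≤ 1 / 4 := by
            rw [div_le_div_iff₀ (by positivity) (by norm_num)]
            nlinarith
    have hn := norm_nonneg (z - w)
    calc _ ≤ ‖layer N s a 0 m z - layer N s a 0 m w‖ + ‖∑ c' ∈ Finset.range c,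
          (rs (cen N m c') (rad N m) (U N s a (m + 1)) z -
          rs (cen N m c') (rad N m) (U N s a (m + 1)) w)‖ := norm_add_le _ _
      _ ≤ 1 / (4 * 2 ^ m * M m) * (1 / 2) ^ 0 * ‖z - w‖ +
          c * (1 / (2 * 2 ^ (m + 1) * M (m + 1)) * ‖z - w‖) := add_le_add h5 h4
      _ = (1 / (4 * 2 ^ m * M m) * (1 / 2) ^ 0 + c * (1 / (2 * 2 ^ (m + 1) * M (m + 1)))) *
          ‖z - w‖ := by ring
      _ ≤ 1 / 2 * ‖z - w‖ := mul_le_mul_of_nonneg_right (by linarith) hn

/-- the other parts of the cluster vanish near a subcluster -/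
theorem part_zero {m c : ℕ} {z : ℂ} (hz : ‖z - cen N m c‖ < 2 * rad N m) :
    part N s a m c z = 0 := by
  have hr := rad_pos h.hN m
  have hNm : (1 : ℝ) ≤ N m := by exact_mod_cast h.hN m
  unfold part
  have h1 : layer N s a 0 m z = 0 := by
    refine rs_supp (h.supp m) _ h.hs ?_
    refine le_trans h.hsR ?_
    have h2 : |(z - cen N m c).re| < 2 * rad N m := lt_of_le_of_lt (Complex.abs_re_le_norm _) hz
    have h3 : (cen N m c).re = (2 * c + 1) / (4 * N m) := by unfold cen; rw [Complex.ofReal_re]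
    rw [Complex.sub_re, h3] at h2
    have h4 := (abs_lt.mp h2).1
    have h5 : 2 * rad N m = 1 / (4 * N m) := by unfold rad; field_simp; ring
    rw [h5] at h4
    have h6 : (1 : ℝ) / (4 * N m) ≤ (2 * c + 1) / (4 * N m) := by
      refine div_le_div_of_nonneg_right ?_ (by positivity)
      have : (0 : ℝ) ≤ c := Nat.cast_nonneg _
      linarith
    have h7 : (0 : ℝ) ≤ z.re := by linarith
    have h8 := Complex.abs_re_le_norm (z - (-1 / 2))
    have h9 : (z - (-1 / 2)).re = z.re + 1 / 2 := by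
      rw [Complex.sub_re]
      have : (-1 / 2 : ℂ).re = -1 / 2 := by
        have : (-1 / 2 : ℂ) = ((-1 / 2 : ℝ) : ℂ) := by push_cast; ring
        rw [this, Complex.ofReal_re]
      rw [this]; ring
    rw [h9, abs_of_nonneg (by linarith)] at h8
    linarith
  rw [h1, zero_add]
  refine Finset.sum_eq_zero (fun c' hc' => ?_)
  refine rs_supp (R := 1) (fun z hz => h.U_supp _ hz) _ hr ?_
  have h2 := cen_sub h.hN m (Finset.mem_range.mp hc')
  have h3 : ‖cen N m c - cen N m c'‖ ≤ ‖z - cen N m c‖ + ‖z - cen N m c'‖ := by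
    have := norm_sub_le (z - cen N m c') (z - cen N m c)
    have e : z - cen N m c' - (z - cen N m c) = cen N m c - cen N m c' := by ring
    rw [e] at this; linarith
  linarith

theorem sub_zero' {m c : ℕ} {z : ℂ} (hz : rad N m ≤ ‖z - cen N m c‖) :
    sub N s a m c z = 0 :=
  rs_supp (R := 1) (fun _ hz => h.U_supp _ hz) _ (rad_pos h.hN m) (by linarith)

theorem sub_mem {m c : ℕ} {z : ℂ} (hz : ‖z - cen N m c‖ < rad N m) :
    ‖z + sub N s a m c z - cen N m c‖ < 2 * rad N m := by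
  have hr := rad_pos h.hN m
  have h1 : ‖sub N s a m c z‖ ≤ rad N m := by
    unfold sub rs
    rw [norm_smul, Real.norm_eq_abs, abs_of_pos hr]
    have := h.U_le m ((rad N m)⁻¹ • (z - cen N m c))
    nlinarith
  have h2 : z + sub N s a m c z - cen N m c = (z - cen N m c) + sub N s a m c z := by ring
  rw [h2]
  have := norm_add_le (z - cen N m c) (sub N s a m c z)
  linarith

theorem dif_part_succ {m c : ℕ} (hc : c < N m) :
    dif (part N s a m (c + 1)) = dif (part N s a m c) * dif (sub N s a m c) := by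
  apply diffC_ext
  intro z
  rw [Subgroup.coe_mul, Equiv.Perm.mul_apply, dif_app (h.good_part hc),
    dif_app (h.good_sub hc), dif_app (h.good_part hc.le), part_succ]
  by_cases hz : ‖z - cen N m c‖ < rad N m
  · have hr := rad_pos h.hN m
    rw [h.part_zero (h.sub_mem hz), h.part_zero (by linarith : _ < 2 * rad N m)]
    ring
  · push Not at hz
    rw [h.sub_zero' hz]
    ring_nf

theorem conj_sub {m c : ℕ} (hc : c < N m) {θ : DiffC}
    (hθ : ∀ z, ‖z‖ ≤ |1| + 1 → (θ : Equiv.Perm ℂ) z = cen N m c + rad N m • z) :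
    θ * dif (U N s a (m + 1)) * θ⁻¹ = dif (sub N s a m c) :=
  conj_rs (R := 1) (fun _ hz => h.U_supp _ hz) (h.U_le m) (rad_pos h.hN m) hθ
    (dif_app (h.good_U (m + 1))) (dif_app (h.good_sub hc))

theorem conj_letter {m : ℕ} {θ : DiffC}
    (hθ : ∀ z, ‖z‖ ≤ |R| + 1 → (θ : Equiv.Perm ℂ) z = -1 / 2 + s • z) :
    θ * dif (a m) * θ⁻¹ = dif (part N s a m 0) := by
  refine conj_rs (h.supp m) (h.a_le m) h.hs hθ (dif_app (h.good_a m)) ?_
  intro z
  rw [dif_app (h.good_part (Nat.zero_le _))]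
  unfold part
  rw [Finset.sum_range_zero, add_zero]
  rfl

end Dat

end Pool.Agent.H75S
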