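import Pool.Agent.H75S.Final

set_option autoImplicit false

open scoped ContDiff NNReal commutatorElement
open Set

namespace Pool.Agent.H75S

open Pool.Agent.H45F Pool.Agent.H75T

universe u

/-- the group of the diffeomorphisms supported in the disc of radius `R` -/
def discSub (R : ℝ) : Subgroup DiffC where
  carrier := {g | ∀ z : ℂ, R ≤ ‖z‖ → (g : Equiv.Perm ℂ) z = z}
  mul_mem' := by
    intro f g hf hg z hz
    rw [Subgroup.coe_mul, Equiv.Perm.mul_apply, hg z hz, hf z hz]
  one_mem' := fun _ _ => rfl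
  inv_mem' := by
    intro f hf z hz
    rw [Subgroup.coe_inv, Equiv.Perm.inv_eq_iff_eq, hf z hz]

/-- Small diffeomorphisms are products of a bounded number of commutators of small ones. -/
def LocallyPerfect : Prop :=
  ∃ k : ℕ, ∀ R : ℝ, ∃ R' : ℝ, ∀ (r : ℕ) (ε : ℝ), 0 < ε → ∃ (r' : ℕ) (ε' : ℝ), 0 < ε' ∧
    ∀ g : DiffC, Small R r' ε' g → ∃ a b : Fin k → DiffC, (∀ i, Small R' r ε (a i)) ∧
      (∀ i, Small R' r ε (b i)) ∧ g = (List.ofFn fun i => ⁅a i, b i⁆).prod

/-- The group of the diffeomorphisms supported in a disc is generated by the small ones, with the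
relations between three small ones. -/
def LocallyPresented : Prop :=
  ∀ (R : ℝ) (r : ℕ) (ε : ℝ), 1 ≤ r → 0 < ε → ε ≤ 1 / 2 →
    discSub R ≤ Subgroup.closure {g : DiffC | Small R r ε g} ∧
    ∀ (Γ : Type u) [Group Γ] (s : DiffC → Γ),
      (∀ g h : DiffC, Small R r ε g → Small R r ε h → Small R r ε (g * h : DiffC) →
        s (g * h) = s g * s h) →
      ∃ σ : discSub R →* Γ, ∀ g : discSub R, Small R r ε (g : DiffC) → σ g = s g

theorem Small.mono {R : ℝ} {r r' : ℕ} {ε ε' : ℝ} {g : Equiv.Perm ℂ} (h : Small R r' ε' g)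
    (hr : r ≤ r') (hε : ε' ≤ ε) : Small R r ε g :=
  ⟨h.1, fun j hj z => le_trans (h.2 j (le_trans hj hr) z) hε⟩

section

variable {E : Type u} [Group E] (p : E →* DiffC) (hp : Function.Surjective p)
  (hc : p.ker ≤ Subgroup.center E) (hE : commutator E = ⊤)
  {A : Type*} [AddCommGroup A] (φ : p.ker →* Multiplicative A)

/-- the product of the commutators of a list of pairs -/
def lw {H : Type*} [Group H] (L : List (H × H)) : H := (L.map fun q => ⁅q.1, q.2⁆).prod

theorem lw_append {H : Type*} [Group H] (L L' : List (H × H)) : lw (L ++ L') = lw L * lw L' := by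
  simp [lw]

theorem lw_inv {H : Type*} [Group H] (L : List (H × H)) :
    lw (L.reverse.map fun q => (q.2, q.1)) = (lw L)⁻¹ := by
  unfold lw
  rw [List.prod_inv_reverse, List.map_map, List.map_map, ← List.map_reverse]
  congr 1
  apply List.map_congr_left
  intro q _
  simp [commutatorElement_inv]

theorem map_lw {H H' : Type*} [Group H] [Group H'] (f : H →* H') (L : List (H × H)) :
    f (lw L) = lw (L.map fun q => (f q.1, f q.2)) := by
  unfold lw
  rw [map_list_prod, List.map_map, List.map_map]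
  congr 1
  apply List.map_congr_left
  intro q _
  simp [map_commutatorElement]

theorem wd_get {H : Type*} [Group H] (L : List (H × H)) :
    wd (fun i => (L.get i).1) (fun i => (L.get i).2) = lw L := by
  unfold wd lw
  have h : (List.finRange L.length).map (fun i => ⁅(L.get i).1, (L.get i).2⁆) =
      ((List.finRange L.length).map L.get).map (fun q => ⁅q.1, q.2⁆) := by
    rw [List.map_map]; rfl
  rw [h, List.map_get_finRange]

include hp hc hE in
theorem small_relations_list [Countable A]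
    (htf : ∀ (n : ℕ) (a : A), n ≠ 0 → n • a = 0 → a = 0)
    (hred : ∀ a : A, (∀ n : ℕ, n ≠ 0 → ∃ b : A, n • b = a) → a = 0) (n : ℕ) (R : ℝ) :
    ∃ (r : ℕ) (ε : ℝ), 0 < ε ∧ ∀ L : List (E × E), L.length = n →
      (∀ q ∈ L, Small R r ε (p q.1) ∧ Small R r ε (p q.2)) → lw L ∈ p.ker → val φ (lw L) = 0 := by
  obtain ⟨r, ε, hε, h⟩ := small_relations p hp hc hE htf hred φ n R
  refine ⟨r, ε, hε, fun L hL hs hk => ?_⟩
  subst hL
  rw [← wd_get] at hk ⊢
  exact h _ _ (fun i => (hs _ (List.get_mem L i)).1) (fun i => (hs _ (List.get_mem L i)).2) hk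

/-- the kernel of `φ` in `E` -/
def kerE : Subgroup E where
  carrier := {e | e ∈ p.ker ∧ val φ e = 0}
  mul_mem' := by
    rintro a b ⟨ha, ha'⟩ ⟨hb, hb'⟩
    exact ⟨p.ker.mul_mem ha hb, by rw [val_mul φ ha hb, ha', hb', add_zero]⟩
  one_mem' := ⟨p.ker.one_mem, val_one φ⟩
  inv_mem' := by
    rintro a ⟨ha, ha'⟩
    refine ⟨p.ker.inv_mem ha, ?_⟩
    have h := val_mul φ ha (p.ker.inv_mem ha)
    rw [mul_inv_cancel, val_one, ha', zero_add] at h
    exact h.symm

include hc in
theorem kerE_normal : (kerE p φ).Normal := by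
  refine ⟨fun n hn g => ?_⟩
  have h := Subgroup.mem_center_iff.mp (hc hn.1) g
  rw [h, mul_inv_cancel_right]
  exact hn

include hp hc hE in
/-- With local perfectness and local presentability there are no nonzero homomorphisms. -/
theorem val_eq_zero [Countable A]
    (htf : ∀ (n : ℕ) (a : A), n ≠ 0 → n • a = 0 → a = 0)
    (hred : ∀ a : A, (∀ n : ℕ, n ≠ 0 → ∃ b : A, n • b = a) → a = 0)
    (hLP : LocallyPerfect) (hLE : LocallyPresented.{u}) {z : E} (hz : z ∈ p.ker) :
    val φ z = 0 := by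
  classical
  have := kerE_normal p hc φ
  obtain ⟨L, hL⟩ := exists_list_of_commutator_top hE z
  obtain ⟨R, hR⟩ := exists_radius_list (L.map (fun q => p q.1) ++ L.map (fun q => p q.2))
  have hR1 : ∀ q ∈ L, p q.1 ∈ discSub R := fun q hq =>
    hR _ (List.mem_append_left _ (List.mem_map_of_mem hq))
  have hR2 : ∀ q ∈ L, p q.2 ∈ discSub R := fun q hq =>
    hR _ (List.mem_append_right _ (List.mem_map_of_mem hq))
  obtain ⟨k, hk⟩ := hLP
  obtain ⟨R', hR'⟩ := hk R
  obtain ⟨r, ε, hε, hS⟩ := small_relations_list p hp hc hE φ htf hred (3 * k) R'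
  obtain ⟨r', ε', hε', hg⟩ := hR' r ε hε
  set r'' : ℕ := max r' 1 with hr''
  set ε'' : ℝ := min ε' (1 / 2) with hε''
  have hε''0 : 0 < ε'' := lt_min hε' (by norm_num)
  obtain ⟨hgen, hext⟩ := hLE R r'' ε'' (le_max_right _ _) hε''0 (min_le_right _ _)
  -- lists of small commutators
  have hrep : ∀ g : DiffC, ∃ L : List (E × E), Small R r'' ε'' g →
      L.length = k ∧ (∀ q ∈ L, Small R' r ε (p q.1) ∧ Small R' r ε (p q.2)) ∧ p (lw L) = g := by
    intro g
    by_cases hs : Small R r'' ε'' g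
    · obtain ⟨a, b, ha, hb, hab⟩ := hg g (hs.mono (le_max_left _ _) (min_le_left _ _))
      refine ⟨List.ofFn fun i => (lft p hp (a i), lft p hp (b i)), fun _ => ⟨by simp, ?_, ?_⟩⟩
      · intro q hq
        rw [List.mem_ofFn] at hq
        obtain ⟨i, rfl⟩ := hq
        simp only [p_lft]
        exact ⟨ha i, hb i⟩
      · rw [map_lw]
        unfold lw
        rw [List.map_map, List.map_ofFn, hab]
        congr 2
        funext i
        simp [p_lft]
    · exact ⟨[], fun h => absurd h hs⟩
  choose rep hrep using hrep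
  let s : DiffC → E ⧸ kerE p φ := fun g => (QuotientGroup.mk (lw (rep g)) : E ⧸ kerE p φ)
  obtain ⟨σ, hσ⟩ := hext (E ⧸ kerE p φ) s (by
    intro g h hgs hhs hghs
    obtain ⟨l1, s1, p1⟩ := hrep g hgs
    obtain ⟨l2, s2, p2⟩ := hrep h hhs
    obtain ⟨l3, s3, p3⟩ := hrep (g * h) hghs
    change (QuotientGroup.mk (lw (rep (g * h))) : E ⧸ kerE p φ) =
      QuotientGroup.mk (lw (rep g)) * QuotientGroup.mk (lw (rep h))
    rw [← QuotientGroup.mk_mul]
    rw [QuotientGroup.eq]
    set L4 : List (E × E) := ((rep (g * h)).reverse.map fun q => (q.2, q.1)) ++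
      (rep g ++ rep h) with hL4
    have e : lw L4 = (lw (rep (g * h)))⁻¹ * (lw (rep g) * lw (rep h)) := by
      rw [hL4, lw_append, lw_append, lw_inv]
    rw [← e]
    have hker : lw L4 ∈ p.ker := by
      rw [MonoidHom.mem_ker, e, map_mul, map_inv, map_mul, p1, p2, p3]; group
    refine ⟨hker, hS L4 ?_ ?_ hker⟩
    · rw [hL4]; simp [l1, l2, l3]; ring
    · intro q hq
      rw [hL4, List.mem_append, List.mem_append, List.mem_map] at hq
      rcases hq with ⟨q', hq', rfl⟩ | hq | hq
      · rw [List.mem_reverse] at hq'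
        exact ⟨(s3 q' hq').2, (s3 q' hq').1⟩
      · exact s1 q hq
      · exact s2 q hq)
  -- the projection of the quotient
  let pb : E ⧸ kerE p φ →* DiffC := QuotientGroup.lift (kerE p φ) p (fun x hx => hx.1)
  have hpb : ∀ x : E, pb (QuotientGroup.mk x) = p x := fun x => rfl
  have hpbc : pb.ker ≤ Subgroup.center (E ⧸ kerE p φ) := by
    intro x hx
    obtain ⟨x, rfl⟩ := QuotientGroup.mk_surjective x
    have hx' : x ∈ p.ker := by
      rw [MonoidHom.mem_ker, ← hpb]; exact hx
    rw [Subgroup.mem_center_iff]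
    intro y
    obtain ⟨y, rfl⟩ := QuotientGroup.mk_surjective y
    rw [← QuotientGroup.mk_mul, ← QuotientGroup.mk_mul, Subgroup.mem_center_iff.mp (hc hx') y]
  have hσp : ∀ g : discSub R, pb (σ g) = g := by
    intro g
    have h1 : (g : DiffC) ∈ Subgroup.closure {g : DiffC | Small R r'' ε'' g} := hgen g.2
    have h2 : ∀ x ∈ Subgroup.closure {g : DiffC | Small R r'' ε'' g},
        ∃ hx : x ∈ discSub R, pb (σ ⟨x, hx⟩) = x := by
      intro x hx
      induction hx using Subgroup.closure_induction with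
      | mem x hx =>
        have hx' : x ∈ discSub R := hx.1
        refine ⟨hx', ?_⟩
        rw [hσ ⟨x, hx'⟩ hx]
        exact (hrep x hx).2.2
      | one => exact ⟨(discSub R).one_mem, by
          have : (⟨1, (discSub R).one_mem⟩ : discSub R) = 1 := rfl
          rw [this, map_one, map_one]⟩
      | mul x y _ _ hx hy =>
        obtain ⟨hx1, hx2⟩ := hx
        obtain ⟨hy1, hy2⟩ := hy
        refine ⟨(discSub R).mul_mem hx1 hy1, ?_⟩
        have : (⟨x * y, (discSub R).mul_mem hx1 hy1⟩ : discSub R) = ⟨x, hx1⟩ * ⟨y, hy1⟩ := rfl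
        rw [this, map_mul, map_mul, hx2, hy2]
      | inv x _ hx =>
        obtain ⟨hx1, hx2⟩ := hx
        refine ⟨(discSub R).inv_mem hx1, ?_⟩
        have : (⟨x⁻¹, (discSub R).inv_mem hx1⟩ : discSub R) = ⟨x, hx1⟩⁻¹ := rfl
        rw [this, map_inv, map_inv, hx2]
    exact (h2 g h1).2
  -- the value of `z` in the quotient
  have hdisc : ∀ L' : List (E × E), (∀ q ∈ L', p q.1 ∈ discSub R) → (∀ q ∈ L', p q.2 ∈ discSub R) →
      ∃ h : lw (L'.map fun q => (p q.1, p q.2)) ∈ discSub R,
        (QuotientGroup.mk (lw L') : E ⧸ kerE p φ) = σ ⟨_, h⟩ := by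
    intro L'
    induction L' with
    | nil =>
      intro _ _
      refine ⟨(discSub R).one_mem, ?_⟩
      have : (⟨lw (([] : List (E × E)).map fun q => (p q.1, p q.2)), (discSub R).one_mem⟩ :
        discSub R) = 1 := rfl
      rw [this, map_one]; rfl
    | cons q L' ih =>
      intro h1 h2
      obtain ⟨h3, h4⟩ := ih (fun q hq => h1 q (List.mem_cons_of_mem _ hq))
        (fun q hq => h2 q (List.mem_cons_of_mem _ hq))
      have hq1 := h1 q List.mem_cons_self
      have hq2 := h2 q List.mem_cons_self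
      have h5 : ⁅p q.1, p q.2⁆ ∈ discSub R := by
        rw [commutatorElement_def]
        exact (discSub R).mul_mem ((discSub R).mul_mem ((discSub R).mul_mem hq1 hq2)
          ((discSub R).inv_mem hq1)) ((discSub R).inv_mem hq2)
      have e1 : lw ((q :: L').map fun q => (p q.1, p q.2)) =
          ⁅p q.1, p q.2⁆ * lw (L'.map fun q => (p q.1, p q.2)) := by simp [lw]
      refine ⟨by rw [e1]; exact (discSub R).mul_mem h5 h3, ?_⟩
      have e2 : lw (q :: L') = ⁅q.1, q.2⁆ * lw L' := by simp [lw]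
      have e3 : (⟨lw ((q :: L').map fun q => (p q.1, p q.2)), by
          rw [e1]; exact (discSub R).mul_mem h5 h3⟩ : discSub R) =
          ⁅(⟨p q.1, hq1⟩ : discSub R), ⟨p q.2, hq2⟩⁆ *
            ⟨lw (L'.map fun q => (p q.1, p q.2)), h3⟩ := by
        refine Subtype.ext (e1.trans ?_)
        simp [commutatorElement_def]
      rw [e3, map_mul, ← h4, e2, QuotientGroup.mk_mul]
      congr 1
      have e4 : (QuotientGroup.mk ⁅q.1, q.2⁆ : E ⧸ kerE p φ) =
          ⁅(QuotientGroup.mk q.1 : E ⧸ kerE p φ), QuotientGroup.mk q.2⁆ := by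
        simp only [commutatorElement_def, QuotientGroup.mk_mul, QuotientGroup.mk_inv]
      rw [e4, map_commutatorElement]
      exact commutator_eq_of pb hpbc (by rw [hpb, hσp]) (by rw [hpb, hσp])
  obtain ⟨h6, h7⟩ := hdisc L hR1 hR2
  have h8 : lw (L.map fun q => (p q.1, p q.2)) = 1 := by
    rw [← map_lw]
    have : lw L = z := hL.symm
    rw [this]; exact hz
  have h9 : (⟨lw (L.map fun q => (p q.1, p q.2)), h6⟩ : discSub R) = 1 := Subtype.ext h8
  rw [h9, map_one, QuotientGroup.eq_one_iff] at h7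
  have h10 : z ∈ kerE p φ := by rw [hL]; exact h7
  exact h10.2

end

end Pool.Agent.H75S
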