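import Pool.Agent.H75S.Tuple

set_option autoImplicit false

open scoped ContDiff NNReal commutatorElement
open Set

namespace Pool.Agent.H75S

open Pool.Agent.H45F Pool.Agent.H75T

/-- `g` is supported in the disc of radius `R`, and the derivatives of order `≤ r` of `g z - z` are
bounded by `ε` -/
def Small (R : ℝ) (r : ℕ) (ε : ℝ) (g : Equiv.Perm ℂ) : Prop :=
  (∀ z : ℂ, R ≤ ‖z‖ → g z = z) ∧
    ∀ j ≤ r, ∀ z : ℂ, ‖iteratedFDeriv ℝ j (fun w => g w - w) z‖ ≤ ε

theorem Small.one {R : ℝ} {r : ℕ} {ε : ℝ} (hε : 0 ≤ ε) : Small R r ε (1 : Equiv.Perm ℂ) := by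
  refine ⟨fun z _ => rfl, fun j _ z => ?_⟩
  have h : (fun w : ℂ => (1 : Equiv.Perm ℂ) w - w) = 0 := by
    funext w; simp
  rw [h]
  have : iteratedFDeriv ℝ j (0 : ℂ → ℂ) z = 0 := by
    have := iteratedFDeriv_fun_zero (𝕜 := ℝ) (E := ℂ) (F := ℂ) (n := j)
    rw [show (0 : ℂ → ℂ) = fun _ => 0 from rfl, this]; rfl
  rw [this, norm_zero]; exact hε

section val

variable {E : Type*} [Group E] {p : E →* DiffC} {A : Type*} [AddCommGroup A]
  (φ : p.ker →* Multiplicative A)

open Classical in
/-- the value of `φ` as a function on `E` -/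
noncomputable def val (e : E) : A := if h : e ∈ p.ker then (φ ⟨e, h⟩).toAdd else 0

theorem val_eq {e : E} (h : e ∈ p.ker) : val φ e = (φ ⟨e, h⟩).toAdd := dif_pos h

theorem val_one : val φ 1 = 0 := by
  rw [val_eq φ (p.ker.one_mem)]
  have : (⟨1, p.ker.one_mem⟩ : p.ker) = 1 := rfl
  rw [this, map_one]; rfl

theorem val_mul {e e' : E} (h : e ∈ p.ker) (h' : e' ∈ p.ker) :
    val φ (e * e') = val φ e + val φ e' := by
  rw [val_eq φ h, val_eq φ h', val_eq φ (p.ker.mul_mem h h')]
  have : (⟨e * e', p.ker.mul_mem h h'⟩ : p.ker) = ⟨e, h⟩ * ⟨e', h'⟩ := rfl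
  rw [this, map_mul]; rfl

theorem val_pow {e : E} (h : e ∈ p.ker) (n : ℕ) : val φ (e ^ n) = n • val φ e := by
  induction n with
  | zero => rw [pow_zero, val_one, zero_smul]
  | succ n ih => rw [pow_succ, val_mul φ (p.ker.pow_mem h n) h, ih, succ_nsmul]

end val

theorem small_relations {E : Type*} [Group E] (p : E →* DiffC) (hp : Function.Surjective p)
    (hc : p.ker ≤ Subgroup.center E) (hE : commutator E = ⊤)
    {A : Type*} [AddCommGroup A] [Countable A]
    (htf : ∀ (n : ℕ) (a : A), n ≠ 0 → n • a = 0 → a = 0)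
    (hred : ∀ a : A, (∀ n : ℕ, n ≠ 0 → ∃ b : A, n • b = a) → a = 0)
    (φ : p.ker →* Multiplicative A) (k : ℕ) (R : ℝ) :
    ∃ (r : ℕ) (ε : ℝ), 0 < ε ∧ ∀ x y : Fin k → E, (∀ i, Small R r ε (p (x i))) →
      (∀ i, Small R r ε (p (y i))) → wd x y ∈ p.ker → val φ (wd x y) = 0 := by
  classical
  by_contra hcon
  push Not at hcon
  have hneg : ∀ (r : ℕ) (ε : ℝ), ∃ x y : Fin k → E, 0 < ε → (∀ i, Small R r ε (p (x i))) ∧
      (∀ i, Small R r ε (p (y i))) ∧ wd x y ∈ p.ker ∧ val φ (wd x y) ≠ 0 := by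
    intro r ε
    by_cases hε : 0 < ε
    · obtain ⟨x, y, h⟩ := hcon r ε hε
      exact ⟨x, y, fun _ => h⟩
    · exact ⟨fun _ => 1, fun _ => 1, fun h => absurd h hε⟩
  choose X Y hXY using hneg
  obtain ⟨e, he⟩ := exists_surjective_nat A
  set s : ℝ := 1 / (4 * (|R| + 1)) with hsdef
  have hR0 : 0 ≤ |R| := abs_nonneg R
  have hs : 0 < s := by positivity
  have hs1 : s ≤ 1 := by
    rw [hsdef, div_le_one (by positivity)]; linarith
  have hsR : s * R ≤ 1 / 4 := by
    calc s * R ≤ s * (|R| + 1) :=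
          mul_le_mul_of_nonneg_left (by linarith [le_abs_self R]) hs.le
      _ = 1 / 4 := by rw [hsdef]; field_simp
  -- the value of the letters at level `l` with `M` clusters
  let v : ℕ → ℕ → A := fun l M => val φ (wd (X (l + 1) (eta s l M)) (Y (l + 1) (eta s l M)))
  have hv : ∀ l M, 1 ≤ M → v l M ≠ 0 := fun l M hM => (hXY _ _ (eta_pos hs l hM)).2.2.2
  -- the number of subclusters
  have hn : ∀ (l M : ℕ), ∃ n : ℕ, 1 ≤ n ∧ (1 ≤ M → ∀ b : A, n • b ≠ M • v l M) := by
    intro l M
    by_cases hM : 1 ≤ M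
    · have h1 : M • v l M ≠ 0 := fun h0 => hv l M hM (htf M _ (by omega) h0)
      by_contra hno
      push Not at hno
      refine h1 (hred _ fun n hn0 => ?_)
      exact (hno n (by omega)).2
    · exact ⟨1, le_rfl, fun h => absurd h hM⟩
  choose nn hnn1 hnn2 using hn
  -- the recursion
  let F : ℕ → ℕ × A → Prop := fun l q => ∃ b : A, (q.1 * nn l q.1) • b = e l - q.2
  let stp : ℕ → ℕ × A → ℕ × A := fun l q =>
    (q.1 * nn l q.1, if F l q then q.2 + q.1 • v l q.1 else q.2)
  let st : ℕ → ℕ × A := fun l => Nat.rec (1, 0) stp l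
  have hst0 : st 0 = (1, 0) := rfl
  have hst : ∀ l, st (l + 1) = stp l (st l) := fun l => rfl
  let M : ℕ → ℕ := fun l => (st l).1
  let σ : ℕ → A := fun l => (st l).2
  let N : ℕ → ℕ := fun l => nn l (M l)
  have hN : ∀ m, 1 ≤ N m := fun m => hnn1 _ _
  have hM0 : M 0 = 1 := rfl
  have hM : ∀ m, M (m + 1) = M m * N m := fun m => rfl
  have hM1 : ∀ m, 1 ≤ M m := by
    intro m
    induction m with
    | zero => exact le_rfl
    | succ m ih =>
      rw [hM]
      exact Nat.one_le_iff_ne_zero.mpr (Nat.mul_ne_zero (by omega) (by have := hN m; omega))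
  have hσ0 : σ 0 = 0 := rfl
  have hσ : ∀ m, σ (m + 1) = if F m (st m) then σ m + M m • v m (M m) else σ m := fun m => rfl
  -- the letters
  let x : Fin k → ℕ → E := fun i m =>
    if F m (st m) then X (m + 1) (eta s m (M m)) i else 1
  let y : Fin k → ℕ → E := fun i m =>
    if F m (st m) then Y (m + 1) (eta s m (M m)) i else 1
  let a : Fin k → ℕ → ℂ → ℂ := fun i m z => (p (x i m) : Equiv.Perm ℂ) z - z
  let b : Fin k → ℕ → ℂ → ℂ := fun i m z => (p (y i m) : Equiv.Perm ℂ) z - z
  have hxs : ∀ i m, Small R (m + 1) (eta s m (M m)) (p (x i m)) := by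
    intro i m
    have hpos := eta_pos hs m (hM1 m)
    by_cases hF : F m (st m)
    · simp only [x, if_pos hF]
      exact (hXY _ _ hpos).1 i
    · simp only [x, if_neg hF, map_one]
      exact Small.one hpos.le
  have hys : ∀ i m, Small R (m + 1) (eta s m (M m)) (p (y i m)) := by
    intro i m
    have hpos := eta_pos hs m (hM1 m)
    by_cases hF : F m (st m)
    · simp only [y, if_pos hF]
      exact (hXY _ _ hpos).2.1 i
    · simp only [y, if_neg hF, map_one]
      exact Small.one hpos.le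
  have hdat : ∀ f : ℕ → DiffC, (∀ m, Small R (m + 1) (eta s m (M m)) (f m)) →
      Dat N M s R (fun m z => (f m : Equiv.Perm ℂ) z - z) := by
    intro f hf
    refine ⟨hN, le_of_eq hM0.symm, hM, hs, hs1, hsR, fun m => ?_, fun m z hz => ?_,
      fun m j hj z => ?_⟩
    · exact (f m).2.1.sub contDiff_id
    · rw [(hf m).1 z hz, sub_self]
    · exact (hf m).2 j hj z
  have hZ : Dat N M s R (fun _ _ => 0) := by
    have h := hdat (fun _ => 1) (fun m => Small.one (eta_pos hs m (hM1 m)).le)
    have e : (fun (m : ℕ) (z : ℂ) => (((1 : DiffC) : Equiv.Perm ℂ) z - z)) = fun _ _ => 0 := by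
      funext m z; simp
    rwa [e] at h
  have hA : ∀ i, Dat N M s R (a i) := fun i => hdat (fun m => p (x i m)) (hxs i)
  have hB : ∀ i, Dat N M s R (b i) := fun i => hdat (fun m => p (y i m)) (hys i)
  have hda : ∀ i m, dif (a i m) = p (x i m) := by
    intro i m
    apply diffC_ext
    intro z
    rw [dif_app ((hA i).good_a m)]
    simp only [a]; ring
  have hdb : ∀ i m, dif (b i m) = p (y i m) := by
    intro i m
    apply diffC_ext
    intro z
    rw [dif_app ((hB i).good_a m)]
    simp only [b]; ring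
  have hmem : ∀ m, wd (fun i => x i m) (fun i => y i m) ∈ p.ker := by
    intro m
    by_cases hF : F m (st m)
    · simp only [x, y, if_pos hF]
      exact (hXY _ _ (eta_pos hs m (hM1 m))).2.2.1
    · simp only [x, y, if_neg hF]
      rw [wd_one]; exact p.ker.one_mem
  have hL : ∀ m, wd (fun i => dif (a i m)) (fun i => dif (b i m)) = 1 := by
    intro m
    have h1 := hmem m
    rw [MonoidHom.mem_ker, map_wd] at h1
    simp only [hda, hdb]
    exact h1
  have homL : ∀ m, om p hp (fun i => dif (a i m)) (fun i => dif (b i m)) =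
      wd (fun i => x i m) (fun i => y i m) := by
    intro m
    rw [← om_eq p hp hc (x := fun i => x i m) (y := fun i => y i m)]
    · intro i; exact (hda i m).symm
    · intro i; exact (hdb i m).symm
  let V : ℕ → A := fun m =>
    val φ (om p hp (fun i => dif (U N s (a i) m)) (fun i => dif (U N s (b i) m)))
  have hUker : ∀ m, om p hp (fun i => dif (U N s (a i) m)) (fun i => dif (U N s (b i) m)) ∈
      p.ker := by
    intro m
    rw [MonoidHom.mem_ker, p_om]
    exact wd_U hZ hA hB p hp hc hE hL m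
  have hval : ∀ m, val φ (wd (fun i => x i m) (fun i => y i m)) =
      if F m (st m) then v m (M m) else 0 := by
    intro m
    by_cases hF : F m (st m)
    · simp only [x, y, if_pos hF]; rfl
    · simp only [x, y, if_neg hF]
      rw [wd_one, val_one]
  have hV : ∀ m, V m = (if F m (st m) then v m (M m) else 0) + N m • V (m + 1) := by
    intro m
    have h1 := om_U hZ hA hB p hp hc hE hL m
    have h2 : V m = val φ (om p hp (fun i => dif (a i m)) (fun i => dif (b i m)) *
      om p hp (fun i => dif (U N s (a i) (m + 1))) (fun i => dif (U N s (b i) (m + 1))) ^ (N m)) :=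
      congrArg (val φ) h1
    rw [h2, val_mul φ (by rw [homL]; exact hmem m) (p.ker.pow_mem (hUker _) _),
      val_pow φ (hUker _), homL, hval]
  have hmain : ∀ l, V 0 = σ l + M l • V l := by
    intro l
    induction l with
    | zero => rw [hσ0, hM0, one_smul, zero_add]
    | succ l ih =>
      rw [ih, hV l, hM, hσ, smul_add, smul_smul]
      by_cases hF : F l (st l)
      · rw [if_pos hF, if_pos hF, add_assoc]
      · rw [if_neg hF, if_neg hF, smul_zero, zero_add]
  obtain ⟨l, hl⟩ := he (V 0)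
  have h1 := hmain (l + 1)
  by_cases hF : F l (st l)
  · obtain ⟨c, hc'⟩ := id hF
    rw [hσ, if_pos hF] at h1
    have h2 : (M l * N l) • c = e l - σ l := hc'
    rw [hl, h1, hM] at h2
    refine hnn2 l (M l) (hM1 l) (M l • (c - V (l + 1))) ?_
    change N l • (M l • (c - V (l + 1))) = M l • v l (M l)
    rw [smul_smul, mul_comm (N l), smul_sub, h2]
    abel
  · refine hF ⟨V (l + 1), ?_⟩
    rw [hσ, if_neg hF, hM] at h1
    change (M l * N l) • V (l + 1) = e l - σ l
    rw [hl, h1]
    abel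

end Pool.Agent.H75S
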