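import Mathlib

set_option autoImplicit false

open scoped ContDiff NNReal
open Set

namespace Pool.Agent.H75S

/-- rescaled copy of a displacement field -/
noncomputable def rs (x : ℂ) (ρ : ℝ) (f : ℂ → ℂ) (z : ℂ) : ℂ := ρ • f (ρ⁻¹ • (z - x))

theorem rs_smooth {f : ℂ → ℂ} (hf : ContDiff ℝ ∞ f) (x : ℂ) (ρ : ℝ) :
    ContDiff ℝ ∞ (rs x ρ f) :=
  (hf.comp ((contDiff_id.sub contDiff_const).const_smul ρ⁻¹)).const_smul ρ

theorem rs_bound {f : ℂ → ℂ} (hf : ContDiff ℝ ∞ f) (x : ℂ) {ρ : ℝ} (hρ : 0 < ρ) (j : ℕ) {C : ℝ}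
    (hC : ∀ z, ‖iteratedFDeriv ℝ j f z‖ ≤ C) (z : ℂ) :
    ‖iteratedFDeriv ℝ j (rs x ρ f) z‖ ≤ ρ * (ρ⁻¹) ^ j * C := by
  set L : ℂ →L[ℝ] ℂ := ρ⁻¹ • ContinuousLinearMap.id ℝ ℂ with hL
  have hLn : ‖L‖ ≤ ρ⁻¹ := by
    rw [hL, norm_smul, Real.norm_eq_abs, abs_of_pos (inv_pos.mpr hρ)]
    calc ρ⁻¹ * ‖ContinuousLinearMap.id ℝ ℂ‖ ≤ ρ⁻¹ * 1 :=
          mul_le_mul_of_nonneg_left ContinuousLinearMap.norm_id_le (inv_pos.mpr hρ).le
      _ = ρ⁻¹ := mul_one _
  have hg : ContDiff ℝ ∞ (f ∘ L) := hf.comp L.contDiff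
  have h1 : rs x ρ f = fun z => (ρ • (f ∘ L)) (z - x) := by
    funext z; rfl
  rw [h1, iteratedFDeriv_comp_sub]
  have hj : ((j : ℕ) : WithTop ℕ∞) ≤ ∞ := by exact_mod_cast le_top
  rw [iteratedFDeriv_const_smul_apply ((hg.of_le hj).contDiffAt), norm_smul, Real.norm_eq_abs,
    abs_of_pos hρ, ContinuousLinearMap.iteratedFDeriv_comp_right L hf _ hj]
  have h2 := ContinuousMultilinearMap.norm_compContinuousLinearMap_le
    (iteratedFDeriv ℝ j f (L (z - x))) (fun _ : Fin j => L)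
  rw [Finset.prod_const, Finset.card_univ, Fintype.card_fin] at h2
  have hC0 : 0 ≤ C := le_trans (norm_nonneg _) (hC 0)
  calc ρ * ‖(iteratedFDeriv ℝ j f (L (z - x))).compContinuousLinearMap fun _ => L‖
      ≤ ρ * (‖iteratedFDeriv ℝ j f (L (z - x))‖ * ‖L‖ ^ j) :=
        mul_le_mul_of_nonneg_left h2 hρ.le
    _ ≤ ρ * (C * (ρ⁻¹) ^ j) := by
        refine mul_le_mul_of_nonneg_left ?_ hρ.le
        exact mul_le_mul (hC _) (pow_le_pow_left₀ (norm_nonneg _) hLn j) (by positivity) hC0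
    _ = ρ * (ρ⁻¹) ^ j * C := by ring

theorem rs_lip {f : ℂ → ℂ} (x : ℂ) {ρ : ℝ} (hρ : 0 < ρ) {C : ℝ}
    (hC : ∀ z w, ‖f z - f w‖ ≤ C * ‖z - w‖) (z w : ℂ) :
    ‖rs x ρ f z - rs x ρ f w‖ ≤ C * ‖z - w‖ := by
  unfold rs
  rw [← smul_sub, norm_smul, Real.norm_eq_abs, abs_of_pos hρ]
  have h1 := hC (ρ⁻¹ • (z - x)) (ρ⁻¹ • (w - x))
  rw [← smul_sub, norm_smul, Real.norm_eq_abs, abs_of_pos (inv_pos.mpr hρ)] at h1
  have h2 : z - x - (w - x) = z - w := by ring
  rw [h2] at h1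
  calc ρ * ‖f (ρ⁻¹ • (z - x)) - f (ρ⁻¹ • (w - x))‖ ≤ ρ * (C * (ρ⁻¹ * ‖z - w‖)) :=
        mul_le_mul_of_nonneg_left h1 hρ.le
    _ = C * ‖z - w‖ := by field_simp

theorem rs_supp {f : ℂ → ℂ} {R : ℝ} (hf : ∀ z, R ≤ ‖z‖ → f z = 0) (x : ℂ) {ρ : ℝ} (hρ : 0 < ρ)
    {z : ℂ} (hz : ρ * R ≤ ‖z - x‖) : rs x ρ f z = 0 := by
  unfold rs
  rw [hf, smul_zero]
  rw [norm_smul, Real.norm_eq_abs, abs_of_pos (inv_pos.mpr hρ), inv_mul_eq_div, le_div_iff₀ hρ]
  linarith

section layer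

variable (N : ℕ → ℕ) (s : ℝ) (a : ℕ → ℂ → ℂ)

/-- radius of the discs of level `m` -/
noncomputable def rad (m : ℕ) : ℝ := 1 / (8 * N m)

/-- center of the disc number `c` of level `m` -/
noncomputable def cen (m c : ℕ) : ℂ := (((2 * c + 1) / (4 * N m) : ℝ) : ℂ)

/-- the copies of depth `n` below a cluster of level `m` -/
noncomputable def layer : ℕ → ℕ → ℂ → ℂ
  | 0, m => rs (-1 / 2) s (a m)
  | n + 1, m => fun z => ∑ c ∈ Finset.range (N m), rs (cen N m c) (rad N m) (layer n (m + 1)) z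

variable {N s a}

theorem rad_pos (hN : ∀ m, 1 ≤ N m) (m : ℕ) : 0 < rad N m := by
  unfold rad
  have : (1 : ℝ) ≤ N m := by exact_mod_cast hN m
  positivity

theorem layer_smooth (ha : ∀ m, ContDiff ℝ ∞ (a m)) (n : ℕ) :
    ∀ m, ContDiff ℝ ∞ (layer N s a n m) := by
  induction n with
  | zero => intro m; exact rs_smooth (ha m) _ _
  | succ n ih =>
    intro m
    exact ContDiff.sum (fun c _ => rs_smooth (ih (m + 1)) _ _)

/-- number of clusters -/
def Pn (N : ℕ → ℕ) (n m : ℕ) : ℕ := ∏ i ∈ Finset.range n, N (m + i)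

theorem Pn_succ (n m : ℕ) : Pn N (n + 1) m = N m * Pn N n (m + 1) := by
  unfold Pn
  rw [Finset.prod_range_succ', mul_comm]
  simp only [add_zero]
  congr 1
  refine Finset.prod_congr rfl (fun i _ => ?_)
  congr 1; ring

theorem layer_bound (hN : ∀ m, 1 ≤ N m) (hs : 0 < s) (ha : ∀ m, ContDiff ℝ ∞ (a m)) (j : ℕ)
    {C : ℝ} (n : ℕ) : ∀ m, (∀ z, ‖iteratedFDeriv ℝ j (a (m + n)) z‖ ≤ C) →
    ∀ z, ‖iteratedFDeriv ℝ j (layer N s a n m) z‖ ≤
      (8 ^ n * Pn N n m : ℝ) ^ j * (s * (s⁻¹) ^ j) * C := by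
  induction n with
  | zero =>
    intro m hC z
    have h := rs_bound (ha m) (-1 / 2) hs j hC z
    simpa [Pn, layer] using h
  | succ n ih =>
    intro m hC z
    have hC' : ∀ z, ‖iteratedFDeriv ℝ j (a (m + 1 + n)) z‖ ≤ C := by
      have : m + 1 + n = m + (n + 1) := by ring
      rw [this]; exact hC
    have h1 := ih (m + 1) hC'
    have hC0 : 0 ≤ C := le_trans (norm_nonneg _) (hC 0)
    set D : ℝ := (8 ^ n * Pn N n (m + 1) : ℝ) ^ j * (s * (s⁻¹) ^ j) * C with hD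
    have hD0 : 0 ≤ D := by positivity
    have hr := rad_pos hN m
    have h2 : ∀ c ∈ Finset.range (N m),
        ‖iteratedFDeriv ℝ j (rs (cen N m c) (rad N m) (layer N s a n (m + 1))) z‖ ≤
          rad N m * ((rad N m)⁻¹) ^ j * D :=
      fun c _ => rs_bound (layer_smooth ha n (m + 1)) _ hr j h1 z
    have hj : ((j : ℕ) : WithTop ℕ∞) ≤ ∞ := by exact_mod_cast le_top
    have h3 : iteratedFDeriv ℝ j (layer N s a (n + 1) m) z = ∑ c ∈ Finset.range (N m),
        iteratedFDeriv ℝ j (rs (cen N m c) (rad N m) (layer N s a n (m + 1))) z := by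
      have h4 := iteratedFDeriv_sum (𝕜 := ℝ) (i := j) (u := Finset.range (N m))
        (f := fun c => rs (cen N m c) (rad N m) (layer N s a n (m + 1)))
        (fun c _ => (rs_smooth (layer_smooth ha n (m + 1)) _ _).of_le hj)
      have h5 := congrFun h4 z
      rw [Finset.sum_apply] at h5
      exact h5
    rw [h3]
    have hNm : (1 : ℝ) ≤ N m := by exact_mod_cast hN m
    calc ‖∑ c ∈ Finset.range (N m),
          iteratedFDeriv ℝ j (rs (cen N m c) (rad N m) (layer N s a n (m + 1))) z‖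
        ≤ ∑ c ∈ Finset.range (N m), rad N m * ((rad N m)⁻¹) ^ j * D :=
          norm_sum_le_of_le _ h2
      _ = (N m * rad N m) * ((rad N m)⁻¹) ^ j * D := by
          rw [Finset.sum_const, Finset.card_range, nsmul_eq_mul]; ring
      _ ≤ 1 * (8 * N m : ℝ) ^ j * D := by
          have e1 : (N m : ℝ) * rad N m = 1 / 8 := by unfold rad; field_simp
          have e2 : (rad N m)⁻¹ = 8 * N m := by unfold rad; simp
          rw [e1, e2]
          refine mul_le_mul_of_nonneg_right ?_ hD0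
          refine mul_le_mul_of_nonneg_right (by norm_num) (by positivity)
      _ = (8 ^ (n + 1) * Pn N (n + 1) m : ℝ) ^ j * (s * (s⁻¹) ^ j) * C := by
          rw [hD, Pn_succ, pow_succ]
          push_cast
          rw [show (8 ^ n * 8 * ((N m : ℝ) * (Pn N n (m + 1) : ℝ))) =
            (8 * N m) * (8 ^ n * Pn N n (m + 1)) by ring, mul_pow]
          ring

theorem layer_lip (hN : ∀ m, 1 ≤ N m) (hs : 0 < s) {C : ℝ} (n : ℕ) :
    ∀ m, (∀ z w, ‖a (m + n) z - a (m + n) w‖ ≤ C * ‖z - w‖) →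
    ∀ z w, ‖layer N s a n m z - layer N s a n m w‖ ≤ Pn N n m * C * ‖z - w‖ := by
  induction n with
  | zero =>
    intro m hC z w
    have h := rs_lip (-1 / 2) hs hC z w
    simpa [Pn, layer] using h
  | succ n ih =>
    intro m hC z w
    have hC' : ∀ z w, ‖a (m + 1 + n) z - a (m + 1 + n) w‖ ≤ C * ‖z - w‖ := by
      have : m + 1 + n = m + (n + 1) := by ring
      rw [this]; exact hC
    have h1 := ih (m + 1) hC'
    have hr := rad_pos hN m
    have h2 : ∀ c ∈ Finset.range (N m),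
        ‖rs (cen N m c) (rad N m) (layer N s a n (m + 1)) z -
          rs (cen N m c) (rad N m) (layer N s a n (m + 1)) w‖ ≤
          Pn N n (m + 1) * C * ‖z - w‖ := fun c _ => rs_lip _ hr h1 z w
    have h3 : layer N s a (n + 1) m z - layer N s a (n + 1) m w = ∑ c ∈ Finset.range (N m),
        (rs (cen N m c) (rad N m) (layer N s a n (m + 1)) z -
          rs (cen N m c) (rad N m) (layer N s a n (m + 1)) w) := by
      rw [Finset.sum_sub_distrib]; rfl
    rw [h3]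
    calc _ ≤ ∑ c ∈ Finset.range (N m), (Pn N n (m + 1) * C * ‖z - w‖ : ℝ) :=
          norm_sum_le_of_le _ h2
      _ = _ := by
          rw [Finset.sum_const, Finset.card_range, nsmul_eq_mul, Pn_succ]
          push_cast; ring

/-- distance of the discs -/
theorem cen_norm_add_rad (hN : ∀ m, 1 ≤ N m) {m c : ℕ} (hc : c < N m) :
    ‖cen N m c‖ + rad N m ≤ 1 := by
  have hNm : (1 : ℝ) ≤ N m := by exact_mod_cast hN m
  unfold cen rad
  rw [Complex.norm_real, Real.norm_eq_abs, abs_of_nonneg (by positivity)]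
  have hc' : (c : ℝ) + 1 ≤ N m := by exact_mod_cast hc
  rw [div_add_div _ _ (by positivity) (by positivity), div_le_one (by positivity)]
  nlinarith

theorem layer_supp (hN : ∀ m, 1 ≤ N m) (hs : 0 < s) {R : ℝ} (hsR : s * R ≤ 1 / 4)
    (ha : ∀ m z, R ≤ ‖z‖ → a m z = 0) (n : ℕ) :
    ∀ m z, 1 ≤ ‖z‖ → layer N s a n m z = 0 := by
  induction n with
  | zero =>
    intro m z hz
    refine rs_supp (ha m) _ hs ?_
    have h1 : ‖z‖ ≤ ‖z - (-1 / 2)‖ + ‖(-1 / 2 : ℂ)‖ := by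
      have := norm_add_le (z - (-1 / 2)) (-1 / 2 : ℂ)
      rwa [sub_add_cancel] at this
    have h2 : ‖(-1 / 2 : ℂ)‖ = 1 / 2 := by simp
    linarith
  | succ n ih =>
    intro m z hz
    change ∑ c ∈ Finset.range (N m), rs (cen N m c) (rad N m) (layer N s a n (m + 1)) z = 0
    refine Finset.sum_eq_zero (fun c hc => ?_)
    refine rs_supp (R := 1) (ih (m + 1)) _ (rad_pos hN m) ?_
    have h1 := cen_norm_add_rad hN (Finset.mem_range.mp hc)
    have h2 := norm_sub_norm_le z (cen N m c)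
    linarith

end layer

end Pool.Agent.H75S
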