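import Pool.Agent.H75S.Layer

set_option autoImplicit false

open scoped ContDiff NNReal
open Set

namespace Pool.Agent.H75S

/-- the size allowed for the letters of level `m`, when there are `M` clusters -/
noncomputable def eta (s : ℝ) (m M : ℕ) : ℝ := 1 / (4 * 2 ^ m * M * (8 ^ m * M / s) ^ (m + 1))

theorem eta_pos {s : ℝ} (hs : 0 < s) (m : ℕ) {M : ℕ} (hM : 1 ≤ M) : 0 < eta s m M := by
  have : (1 : ℝ) ≤ M := by exact_mod_cast hM
  unfold eta; positivity

/-- data for the construction -/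
structure Dat (N M : ℕ → ℕ) (s R : ℝ) (a : ℕ → ℂ → ℂ) : Prop where
  hN : ∀ m, 1 ≤ N m
  hM0 : 1 ≤ M 0
  hM : ∀ m, M (m + 1) = M m * N m
  hs : 0 < s
  hs1 : s ≤ 1
  hsR : s * R ≤ 1 / 4
  smooth : ∀ m, ContDiff ℝ ∞ (a m)
  supp : ∀ m z, R ≤ ‖z‖ → a m z = 0
  small : ∀ m j, j ≤ m + 1 → ∀ z, ‖iteratedFDeriv ℝ j (a m) z‖ ≤ eta s m (M m)

namespace Dat

variable {N M : ℕ → ℕ} {s R : ℝ} {a : ℕ → ℂ → ℂ} (h : Dat N M s R a)

include h

theorem M_pos (m : ℕ) : 1 ≤ M m := by
  induction m with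
  | zero => exact h.hM0
  | succ m ih =>
    rw [h.hM]
    exact Nat.one_le_iff_ne_zero.mpr (Nat.mul_ne_zero (Nat.one_le_iff_ne_zero.mp ih)
      (Nat.one_le_iff_ne_zero.mp (h.hN m)))

theorem M_real (m : ℕ) : (1 : ℝ) ≤ M m := by exact_mod_cast h.M_pos m

theorem M_add (n : ℕ) : ∀ m, M (m + n) = M m * Pn N n m := by
  induction n with
  | zero => intro m; simp [Pn]
  | succ n ih =>
    intro m
    have h1 := ih (m + 1)
    have h2 : m + (n + 1) = m + 1 + n := by ring
    rw [h2, h1, Pn_succ, h.hM, mul_assoc]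

theorem Pn_le (n m : ℕ) : (Pn N n m : ℝ) ≤ M (m + n) := by
  rw [h.M_add n m]
  push_cast
  have h1 := h.M_real m
  have h2 : (0 : ℝ) ≤ Pn N n m := Nat.cast_nonneg _
  nlinarith

theorem base_ge (l : ℕ) : (M l : ℝ) ≤ 8 ^ l * M l / s := by
  have h1 := h.M_real l
  rw [le_div_iff₀ h.hs]
  have h2 : (1 : ℝ) ≤ 8 ^ l := one_le_pow₀ (by norm_num)
  have h3 := h.hs1
  have h4 := h.hs
  calc (M l : ℝ) * s ≤ M l * 1 := mul_le_mul_of_nonneg_left h3 (by linarith)
    _ ≤ 8 ^ l * M l := by nlinarith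

theorem layer_small {n m j : ℕ} (hj : j ≤ m + n + 1) (z : ℂ) :
    ‖iteratedFDeriv ℝ j (layer N s a n m) z‖ ≤ (1 / 2) ^ (m + n) := by
  have hs := h.hs
  have h1 := layer_bound h.hN hs h.smooth j n m (fun z => h.small (m + n) j hj z) z
  set l : ℕ := m + n with hl
  have hMl := h.M_real l
  have hb : (1 : ℝ) ≤ 8 ^ l * M l / s := le_trans hMl (h.base_ge l)
  have hs1 := h.hs1
  have h2 : (8 ^ n * Pn N n m : ℝ) ^ j * (s * (s⁻¹) ^ j) ≤ (8 ^ l * M l / s) ^ (l + 1) := by
    have e1 : (8 ^ n * Pn N n m : ℝ) ≤ 8 ^ l * M l := by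
      refine mul_le_mul ?_ (h.Pn_le n m) (by positivity) (by positivity)
      exact pow_le_pow_right₀ (by norm_num) (by omega)
    calc (8 ^ n * Pn N n m : ℝ) ^ j * (s * (s⁻¹) ^ j)
        ≤ (8 ^ l * M l : ℝ) ^ j * (1 * (s⁻¹) ^ j) := by
          refine mul_le_mul (pow_le_pow_left₀ (by positivity) e1 j) ?_ (by positivity)
            (by positivity)
          exact mul_le_mul_of_nonneg_right hs1 (by positivity)
      _ = (8 ^ l * M l / s) ^ j := by rw [one_mul, ← mul_pow, div_eq_mul_inv]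
      _ ≤ (8 ^ l * M l / s) ^ (l + 1) := pow_le_pow_right₀ hb hj
  have h3 := eta_pos hs l (h.M_pos l)
  calc _ ≤ _ := h1
    _ ≤ (8 ^ l * M l / s) ^ (l + 1) * eta s l (M l) :=
        mul_le_mul_of_nonneg_right h2 h3.le
    _ = 1 / (4 * 2 ^ l * M l) := by
        unfold eta
        have : (8 ^ l * M l / s : ℝ) ≠ 0 := by positivity
        field_simp
    _ ≤ (1 / 2) ^ l := by
        rw [one_div_pow]
        refine one_div_le_one_div_of_le (by positivity) ?_
        have : (0 : ℝ) < 2 ^ l := by positivity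
        nlinarith

theorem eta_le (l : ℕ) : eta s l (M l) ≤ 1 / (4 * 2 ^ l * M l * M l) := by
  unfold eta
  have hMl := h.M_real l
  have hb := h.base_ge l
  have hb1 : (1 : ℝ) ≤ 8 ^ l * M l / s := le_trans hMl hb
  refine one_div_le_one_div_of_le (by positivity) ?_
  refine mul_le_mul_of_nonneg_left ?_ (by positivity)
  calc (M l : ℝ) ≤ (8 ^ l * M l / s) ^ 1 := by rw [pow_one]; exact hb
    _ ≤ _ := pow_le_pow_right₀ hb1 (by omega)

theorem a_lip (l : ℕ) (z w : ℂ) : ‖a l z - a l w‖ ≤ eta s l (M l) * ‖z - w‖ := by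
  refine Convex.norm_image_sub_le_of_norm_fderiv_le (𝕜 := ℝ) (s := univ)
    (fun x _ => ((h.smooth l).differentiable (by simp)) x) (fun x _ => ?_) convex_univ
    (mem_univ w) (mem_univ z)
  rw [← norm_iteratedFDeriv_one]
  exact h.small l 1 (by omega) x

theorem layer_lip' (n m : ℕ) (z w : ℂ) :
    ‖layer N s a n m z - layer N s a n m w‖ ≤ 1 / (4 * 2 ^ m * M m) * (1 / 2) ^ n * ‖z - w‖ := by
  have h1 := layer_lip h.hN h.hs n m (fun z w => h.a_lip (m + n) z w) z w
  refine le_trans h1 (mul_le_mul_of_nonneg_right ?_ (norm_nonneg _))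
  have hMl := h.M_real (m + n)
  have hMm := h.M_real m
  have h2 : (M (m + n) : ℝ) = M m * Pn N n m := by rw [h.M_add n m]; push_cast; ring
  have h3 : (0 : ℝ) < Pn N n m := by
    by_contra hcon
    push Not at hcon
    nlinarith
  calc (Pn N n m : ℝ) * eta s (m + n) (M (m + n))
      ≤ Pn N n m * (1 / (4 * 2 ^ (m + n) * M (m + n) * M (m + n))) :=
        mul_le_mul_of_nonneg_left (h.eta_le _) h3.le
    _ = 1 / (4 * 2 ^ m * M m) * (1 / 2) ^ n * (1 / M (m + n)) := by
        rw [h2, pow_add, one_div_pow]; field_simp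
    _ ≤ 1 / (4 * 2 ^ m * M m) * (1 / 2) ^ n * 1 := by
        refine mul_le_mul_of_nonneg_left ?_ (by positivity)
        rw [div_le_one (by positivity)]; exact hMl
    _ = _ := mul_one _

theorem layer_supp' (n m : ℕ) {z : ℂ} (hz : 1 ≤ ‖z‖) : layer N s a n m z = 0 :=
  layer_supp h.hN h.hs h.hsR h.supp n m z hz

theorem layer_norm (n m : ℕ) (z : ℂ) : ‖layer N s a n m z‖ ≤ (1 / 2) ^ (m + n) := by
  have := h.layer_small (n := n) (m := m) (j := 0) (by omega) z
  rwa [norm_iteratedFDeriv_zero] at this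

end Dat

/-- the displacement of a whole cluster of level `m` -/
noncomputable def U (N : ℕ → ℕ) (s : ℝ) (a : ℕ → ℂ → ℂ) (m : ℕ) (z : ℂ) : ℂ :=
  ∑' n, layer N s a n m z

namespace Dat

variable {N M : ℕ → ℕ} {s R : ℝ} {a : ℕ → ℂ → ℂ} (h : Dat N M s R a)

include h

omit h in
theorem summable_geom (m : ℕ) : Summable (fun n : ℕ => ((1 : ℝ) / 2) ^ (m + n)) := by
  have : (fun n : ℕ => ((1 : ℝ) / 2) ^ (m + n)) = fun n => (1 / 2) ^ m * (1 / 2) ^ n := by
    funext n; rw [pow_add]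
  rw [this]
  exact (summable_geometric_of_lt_one (by norm_num) (by norm_num)).mul_left _

theorem summable_layer (m : ℕ) (z : ℂ) : Summable (fun n => layer N s a n m z) :=
  Summable.of_norm_bounded (summable_geom m) (fun n => h.layer_norm n m z)

theorem U_smooth (m : ℕ) : ContDiff ℝ ∞ (U N s a m) := by
  refine contDiff_tsum_of_eventually (𝕜 := ℝ) (f := fun n => layer N s a n m)
    (v := fun _ n => (1 / 2) ^ (m + n)) (fun n => layer_smooth h.smooth n m)
    (fun _ _ => summable_geom m) (fun k _ => ?_)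
  rw [Nat.cofinite_eq_atTop]
  filter_upwards [Filter.eventually_ge_atTop k] with n hn z
  exact h.layer_small (by omega) z

theorem U_lip (m : ℕ) (z w : ℂ) :
    ‖U N s a m z - U N s a m w‖ ≤ 1 / (2 * 2 ^ m * M m) * ‖z - w‖ := by
  unfold U
  rw [← (h.summable_layer m z).tsum_sub (h.summable_layer m w)]
  have h1 : HasSum (fun n : ℕ => 1 / (4 * 2 ^ m * M m) * ((1 : ℝ) / 2) ^ n * ‖z - w‖)
      (1 / (4 * 2 ^ m * M m) * 2 * ‖z - w‖) :=
    (hasSum_geometric_two.mul_left _).mul_right _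
  refine le_trans (tsum_of_norm_bounded h1 (fun n => h.layer_lip' n m z w)) (le_of_eq ?_)
  have := h.M_real m
  field_simp
  ring

theorem U_supp (m : ℕ) {z : ℂ} (hz : 1 ≤ ‖z‖) : U N s a m z = 0 := by
  unfold U
  simp_rw [h.layer_supp' _ m hz]
  exact tsum_zero

theorem U_rec (m : ℕ) (z : ℂ) : U N s a m z = layer N s a 0 m z +
    ∑ c ∈ Finset.range (N m), rs (cen N m c) (rad N m) (U N s a (m + 1)) z := by
  have h1 : U N s a m z = layer N s a 0 m z + ∑' n, layer N s a (n + 1) m z :=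
    (h.summable_layer m z).tsum_eq_zero_add
  rw [h1]
  congr 1
  have h2 : ∀ n, layer N s a (n + 1) m z = ∑ c ∈ Finset.range (N m),
      rs (cen N m c) (rad N m) (layer N s a n (m + 1)) z := fun n => rfl
  simp_rw [h2]
  rw [Summable.tsum_finsetSum]
  · refine Finset.sum_congr rfl (fun c _ => ?_)
    unfold rs U
    rw [Summable.tsum_const_smul]
    exact h.summable_layer _ _
  · intro c _
    exact (h.summable_layer (m + 1) _).const_smul _

end Dat

end Pool.Agent.H75S
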