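import Pool.Agent.H75S.Cluster

set_option autoImplicit false

open scoped ContDiff NNReal commutatorElement
open Set

namespace Pool.Agent.H75S

open Pool.Agent.H45F Pool.Agent.H75T

theorem wd_mem {H : Type*} [Group H] {k : ℕ} (S : Subgroup H) {f g : Fin k → H}
    (hf : ∀ i, f i ∈ S) (hg : ∀ i, g i ∈ S) : wd f g ∈ S := by
  unfold wd
  apply Subgroup.list_prod_mem
  intro x hx
  rw [List.mem_map] at hx
  obtain ⟨i, _, rfl⟩ := hx
  rw [commutatorElement_def]
  exact S.mul_mem (S.mul_mem (S.mul_mem (hf i) (hg i)) (S.inv_mem (hf i))) (S.inv_mem (hg i))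

/-- the elements fixing a point -/
def fixSub (w : ℂ) : Subgroup DiffC where
  carrier := {g | (g : Equiv.Perm ℂ) w = w}
  mul_mem' := by
    intro f g (hf : (f : Equiv.Perm ℂ) w = w) (hg : (g : Equiv.Perm ℂ) w = w)
    change ((f * g : DiffC) : Equiv.Perm ℂ) w = w
    rw [Subgroup.coe_mul, Equiv.Perm.mul_apply, hg, hf]
  one_mem' := rfl
  inv_mem' := by
    intro f (hf : (f : Equiv.Perm ℂ) w = w)
    change ((f⁻¹ : DiffC) : Equiv.Perm ℂ) w = w
    rw [Subgroup.coe_inv, Equiv.Perm.inv_eq_iff_eq, hf]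

/-- the underlying permutation -/
abbrev ev (g : DiffC) : Equiv.Perm ℂ := g

theorem ev_mul (x y : DiffC) (z : ℂ) : ev (x * y) z = ev x (ev y z) := rfl

theorem wd_fix {k : ℕ} {f g : Fin k → DiffC} {w : ℂ} (hf : ∀ i, (f i : Equiv.Perm ℂ) w = w)
    (hg : ∀ i, (g i : Equiv.Perm ℂ) w = w) : ev (wd f g) w = w :=
  wd_mem (fixSub w) hf hg

section tuple

variable {k : ℕ} {N M : ℕ → ℕ} {s R : ℝ} {A B : Fin k → ℕ → ℂ → ℂ}
  (hZ : Dat N M s R (fun _ _ => 0))
  (hA : ∀ i, Dat N M s R (A i)) (hB : ∀ i, Dat N M s R (B i))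
  {E : Type*} [Group E] (p : E →* DiffC) (hp : Function.Surjective p)
  (hc : p.ker ≤ Subgroup.center E) (hE : commutator E = ⊤)

include hp hc hE in
theorem lifts_commute {a b : ℕ → ℂ → ℂ} (ha : Dat N M s R a) (hb : Dat N M s R b) {m c : ℕ}
    (hcN : c < N m) (x y : E) (hx : p x = dif (part N s a m c)) (hy : p y = dif (sub N s b m c)) :
    x * y = y * x := by
  have hr := rad_pos ha.hN m
  symm
  refine commute_of_chart p hp hc hE (isChart_ball (cen N m c)
    (by linarith : 0 < 2 * rad N m)) y x ?_ ?_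
  · refine ⟨Metric.closedBall (cen N m c) (rad N m), isCompact_closedBall _ _, ?_, ?_⟩
    · exact Metric.closedBall_subset_ball (by linarith)
    · intro z hz
      rw [Metric.mem_closedBall, dist_eq_norm, not_le] at hz
      rw [hy, dif_app (hb.good_sub hcN), hb.sub_zero' hz.le, add_zero]
  · intro z hz
    rw [Metric.mem_ball, dist_eq_norm] at hz
    rw [hx, dif_app (ha.good_part hcN.le), ha.part_zero hz, add_zero]

include hc hE hA hB in
theorem om_part_succ {m c : ℕ} (hcN : c < N m) :
    om p hp (fun i => dif (part N s (A i) m (c + 1))) (fun i => dif (part N s (B i) m (c + 1))) =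
      om p hp (fun i => dif (part N s (A i) m c)) (fun i => dif (part N s (B i) m c)) *
      om p hp (fun i => dif (sub N s (A i) m c)) (fun i => dif (sub N s (B i) m c)) := by
  rw [← om_mul p hp hc]
  · congr 1
    · funext i; exact (hA i).dif_part_succ hcN
    · funext i; exact (hB i).dif_part_succ hcN
  · rintro a ha b hb x y hx hy
    rcases ha with ⟨i, rfl⟩ | ⟨i, rfl⟩ <;> rcases hb with ⟨j, rfl⟩ | ⟨j, rfl⟩
    · exact lifts_commute p hp hc hE (hA i) (hA j) hcN x y hx hy
    · exact lifts_commute p hp hc hE (hA i) (hB j) hcN x y hx hy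
    · exact lifts_commute p hp hc hE (hB i) (hA j) hcN x y hx hy
    · exact lifts_commute p hp hc hE (hB i) (hB j) hcN x y hx hy

include hp hc hE hA hB in
theorem wd_part_succ {m c : ℕ} (hcN : c < N m) :
    wd (fun i => dif (part N s (A i) m (c + 1))) (fun i => dif (part N s (B i) m (c + 1))) =
      wd (fun i => dif (part N s (A i) m c)) (fun i => dif (part N s (B i) m c)) *
      wd (fun i => dif (sub N s (A i) m c)) (fun i => dif (sub N s (B i) m c)) := by
  have h := congrArg p (om_part_succ hA hB p hp hc hE hcN)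
  rwa [map_mul, p_om, p_om, p_om] at h

include hA hB in
theorem wd_sub_conj {m c : ℕ} (hcN : c < N m) {θ : DiffC}
    (hθ : ∀ z, ‖z‖ ≤ |1| + 1 → (θ : Equiv.Perm ℂ) z = cen N m c + rad N m • z) :
    wd (fun i => dif (sub N s (A i) m c)) (fun i => dif (sub N s (B i) m c)) =
      θ * wd (fun i => dif (U N s (A i) (m + 1))) (fun i => dif (U N s (B i) (m + 1))) * θ⁻¹ := by
  rw [← wd_conj]
  congr 1
  · funext i; exact ((hA i).conj_sub hcN hθ).symm
  · funext i; exact ((hB i).conj_sub hcN hθ).symm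

include hA hB in
theorem wd_part_zero (hL : ∀ m, wd (fun i => dif (A i m)) (fun i => dif (B i m)) = 1) (m : ℕ)
    (hs : 0 < s) :
    wd (fun i => dif (part N s (A i) m 0)) (fun i => dif (part N s (B i) m 0)) = 1 := by
  obtain ⟨θ, hθ⟩ := exists_similarity (-1 / 2) s hs (|R| + 1)
  have h : wd (fun i => dif (part N s (A i) m 0)) (fun i => dif (part N s (B i) m 0)) =
      θ * wd (fun i => dif (A i m)) (fun i => dif (B i m)) * θ⁻¹ := by
    rw [← wd_conj]
    congr 1
    · funext i; exact ((hA i).conj_letter hθ).symm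
    · funext i; exact ((hB i).conj_letter hθ).symm
  rw [h, hL]; group

include hA hB in
/-- the word of a cluster preserves the unit disc -/
theorem wd_U_fix (m : ℕ) {z : ℂ} (hz : 1 ≤ ‖z‖) :
    ev (wd (fun i => dif (U N s (A i) m)) (fun i => dif (U N s (B i) m))) z = z := by
  refine wd_fix (fun i => ?_) (fun i => ?_)
  · rw [dif_app ((hA i).good_U m), (hA i).U_supp m hz, add_zero]
  · rw [dif_app ((hB i).good_U m), (hB i).U_supp m hz, add_zero]

theorem perm_ball {f : Equiv.Perm ℂ} (hf : ∀ z, 1 ≤ ‖z‖ → f z = z) {z : ℂ} (hz : ‖z‖ < 1) :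
    ‖f z‖ < 1 := by
  by_contra hcon
  push Not at hcon
  have h1 := f.injective (hf _ hcon)
  rw [h1] at hcon
  linarith

include hZ hA hB hp hc hE in
theorem disp_step (hL : ∀ m, wd (fun i => dif (A i m)) (fun i => dif (B i m)) = 1) (m : ℕ) {δ : ℝ}
    (hW : ∀ z, ‖ev (wd (fun i => dif (U N s (A i) (m + 1))) (fun i => dif (U N s (B i) (m + 1)))) z - z‖ ≤ δ) (c : ℕ) : c ≤ N m →
    ∀ z, ‖ev (wd (fun i => dif (part N s (A i) m c)) (fun i => dif (part N s (B i) m c))) z - z‖ ≤ rad N m * δ := by
  have hr := rad_pos hZ.hN m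
  have hδ : 0 ≤ δ := le_trans (norm_nonneg _) (hW 0)
  induction c with
  | zero =>
    intro _ z
    rw [wd_part_zero hA hB hL m hZ.hs]
    simp only [OneMemClass.coe_one, Equiv.Perm.coe_one, id_eq, sub_self, norm_zero]
    positivity
  | succ c ih =>
    intro hcN z
    have hcN' : c < N m := hcN
    have ih' := ih hcN'.le
    obtain ⟨θ, hθ⟩ := exists_similarity (cen N m c) (rad N m) hr (|1| + 1)
    rw [wd_part_succ hA hB p hp hc hE hcN', ev_mul]
    by_cases hz : ‖z - cen N m c‖ < rad N m
    · set ζ : ℂ := (rad N m)⁻¹ • (z - cen N m c) with hζ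
      have hζ1 : ‖ζ‖ < 1 := by
        rw [hζ, norm_smul, Real.norm_eq_abs, abs_of_pos (inv_pos.mpr hr), inv_mul_lt_iff₀ hr,
          mul_one]
        exact hz
      have hzζ : z = cen N m c + rad N m • ζ := by
        rw [hζ, smul_smul, mul_inv_cancel₀ hr.ne', one_smul]; ring
      set W : DiffC := wd (fun i => dif (U N s (A i) (m + 1)))
        (fun i => dif (U N s (B i) (m + 1))) with hWdef
      have hWζ : ‖(W : Equiv.Perm ℂ) ζ‖ < 1 :=
        perm_ball (fun z hz => wd_U_fix hA hB (m + 1) hz) hζ1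
      have h1 : ev (wd (fun i => dif (sub N s (A i) m c)) (fun i => dif (sub N s (B i) m c))) z = cen N m c + rad N m • (W : Equiv.Perm ℂ) ζ := by
        rw [wd_sub_conj hA hB hcN' hθ, ← hWdef]
        have h2 : (θ : Equiv.Perm ℂ) ζ = z := by
          rw [hθ ζ (by rw [abs_one]; linarith), ← hzζ]
        have h3 : ev (θ⁻¹) z = ζ := by
          change ((θ⁻¹ : DiffC) : Equiv.Perm ℂ) z = ζ
          rw [Subgroup.coe_inv, Equiv.Perm.inv_eq_iff_eq, h2]
        rw [ev_mul, ev_mul, h3]
        exact hθ _ (by rw [abs_one]; linarith)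
      rw [h1]
      have h4 : ev (wd (fun i => dif (part N s (A i) m c)) (fun i => dif (part N s (B i) m c))) (cen N m c + rad N m • (W : Equiv.Perm ℂ) ζ) =
          cen N m c + rad N m • (W : Equiv.Perm ℂ) ζ := by
        have h5 : ‖cen N m c + rad N m • (W : Equiv.Perm ℂ) ζ - cen N m c‖ < 2 * rad N m := by
          rw [add_sub_cancel_left, norm_smul, Real.norm_eq_abs, abs_of_pos hr]
          nlinarith [norm_nonneg ((W : Equiv.Perm ℂ) ζ)]
        refine wd_fix (fun i => ?_) (fun i => ?_)
        · rw [dif_app ((hA i).good_part hcN'.le), (hA i).part_zero h5, add_zero]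
        · rw [dif_app ((hB i).good_part hcN'.le), (hB i).part_zero h5, add_zero]
      rw [h4]
      have h6 : cen N m c + rad N m • (W : Equiv.Perm ℂ) ζ - z =
          rad N m • ((W : Equiv.Perm ℂ) ζ - ζ) := by
        rw [smul_sub]
        conv_lhs => rw [hzζ]
        ring
      rw [h6, norm_smul, Real.norm_eq_abs, abs_of_pos hr]
      exact mul_le_mul_of_nonneg_left (hW ζ) hr.le
    · push Not at hz
      have h1 : ev (wd (fun i => dif (sub N s (A i) m c)) (fun i => dif (sub N s (B i) m c))) z = z := by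
        refine wd_fix (fun i => ?_) (fun i => ?_)
        · rw [dif_app ((hA i).good_sub hcN'), (hA i).sub_zero' hz, add_zero]
        · rw [dif_app ((hB i).good_sub hcN'), (hB i).sub_zero' hz, add_zero]
      rw [h1]
      exact ih' z

include hZ hA hB hp hc hE in
theorem disp_U (hL : ∀ m, wd (fun i => dif (A i m)) (fun i => dif (B i m)) = 1) (n : ℕ) :
    ∀ m z, ‖ev (wd (fun i => dif (U N s (A i) m)) (fun i => dif (U N s (B i) m))) z - z‖ ≤ 2 * (1 / 8) ^ n := by
  induction n with
  | zero =>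
    intro m z
    rw [pow_zero, mul_one]
    by_cases hz : 1 ≤ ‖z‖
    · rw [wd_U_fix hA hB m hz, sub_self, norm_zero]; norm_num
    · push Not at hz
      have h1 := perm_ball (fun z hz => wd_U_fix hA hB m hz) hz
      have h2 := norm_sub_le (ev (wd (fun i => dif (U N s (A i) m))
        (fun i => dif (U N s (B i) m))) z) z
      linarith
  | succ n ih =>
    intro m z
    have h1 := disp_step hZ hA hB p hp hc hE hL m (ih (m + 1)) (N m) le_rfl z
    have e : ∀ a : ℕ → ℂ → ℂ, Dat N M s R a → dif (part N s a m (N m)) = dif (U N s a m) :=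
      fun a ha => by rw [ha.part_eq_U]
    have e1 : (fun i => dif (part N s (A i) m (N m))) = fun i => dif (U N s (A i) m) := by
      funext i; exact e _ (hA i)
    have e2 : (fun i => dif (part N s (B i) m (N m))) = fun i => dif (U N s (B i) m) := by
      funext i; exact e _ (hB i)
    rw [e1, e2] at h1
    refine le_trans h1 ?_
    have hNm : (1 : ℝ) ≤ N m := by exact_mod_cast hZ.hN m
    have h2 : rad N m ≤ 1 / 8 := by
      unfold rad
      exact one_div_le_one_div_of_le (by norm_num) (by linarith)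
    rw [pow_succ]
    have h3 : (0 : ℝ) < (1 / 8) ^ n := by positivity
    nlinarith

include hZ hA hB hp hc hE in
theorem wd_U (hL : ∀ m, wd (fun i => dif (A i m)) (fun i => dif (B i m)) = 1) (m : ℕ) :
    wd (fun i => dif (U N s (A i) m)) (fun i => dif (U N s (B i) m)) = 1 := by
  apply diffC_ext
  intro z
  have h1 : ‖ev (wd (fun i => dif (U N s (A i) m)) (fun i => dif (U N s (B i) m))) z - z‖ ≤ 0 := by
    have h2 : Filter.Tendsto (fun n : ℕ => 2 * ((1 : ℝ) / 8) ^ n) Filter.atTop (nhds (2 * 0)) :=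
      (tendsto_pow_atTop_nhds_zero_of_lt_one (by norm_num) (by norm_num)).const_mul 2
    rw [mul_zero] at h2
    exact ge_of_tendsto' h2 (fun n => disp_U hZ hA hB p hp hc hE hL n m z)
  rw [norm_le_zero_iff, sub_eq_zero] at h1
  rw [h1]; rfl

include hZ hA hB hc hE in
theorem om_part (hL : ∀ m, wd (fun i => dif (A i m)) (fun i => dif (B i m)) = 1) (m c : ℕ) :
    c ≤ N m →
    om p hp (fun i => dif (part N s (A i) m c)) (fun i => dif (part N s (B i) m c)) =
      om p hp (fun i => dif (A i m)) (fun i => dif (B i m)) *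
      om p hp (fun i => dif (U N s (A i) (m + 1))) (fun i => dif (U N s (B i) (m + 1))) ^ c := by
  induction c with
  | zero =>
    intro _
    obtain ⟨θ, hθ⟩ := exists_similarity (-1 / 2) s hZ.hs (|R| + 1)
    rw [pow_zero, mul_one, ← om_conj p hp hc θ (hL m)]
    congr 1
    · funext i; exact ((hA i).conj_letter hθ).symm
    · funext i; exact ((hB i).conj_letter hθ).symm
  | succ c ih =>
    intro hcN
    have hcN' : c < N m := hcN
    obtain ⟨θ, hθ⟩ := exists_similarity (cen N m c) (rad N m) (rad_pos hZ.hN m) (|1| + 1)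
    rw [om_part_succ hA hB p hp hc hE hcN', ih hcN'.le, pow_succ, mul_assoc]
    congr 2
    rw [← om_conj p hp hc θ (wd_U hZ hA hB p hp hc hE hL (m + 1))]
    congr 1
    · funext i; exact ((hA i).conj_sub hcN' hθ).symm
    · funext i; exact ((hB i).conj_sub hcN' hθ).symm

include hZ hA hB hc hE in
/-- the recursion for the values of the clusters -/
theorem om_U (hL : ∀ m, wd (fun i => dif (A i m)) (fun i => dif (B i m)) = 1) (m : ℕ) :
    om p hp (fun i => dif (U N s (A i) m)) (fun i => dif (U N s (B i) m)) =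
      om p hp (fun i => dif (A i m)) (fun i => dif (B i m)) *
      om p hp (fun i => dif (U N s (A i) (m + 1))) (fun i => dif (U N s (B i) (m + 1))) ^ (N m) := by
  rw [← om_part hZ hA hB p hp hc hE hL m (N m) le_rfl]
  congr 1
  · funext i; rw [(hA i).part_eq_U]
  · funext i; rw [(hB i).part_eq_U]

end tuple

end Pool.Agent.H75S
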